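import Pool.Agent.Q85.Gap.Fwd

/-! # A zero of the derivative near the line gives two close zeros -/

set_option autoImplicit false

open Filter Topology Set Metric Complex

namespace Pool.Agent.Q85.Gap

/-- local data with one simple zero removed -/
theorem rem (F : ℂ → ℂ) (hF : Differentiable ℂ F) (c ρ : ℂ) {M1 K0 : ℝ} (hρ : F ρ = 0)
    (hρc : ‖ρ - c‖ = 3 / 2) (hρ' : deriv F ρ ≠ 0) (hFc : F c ≠ 0)
    (hM : ∀ z ∈ closedBall c (37 / 20), ‖F z‖ ≤ M1)
    (hK0 : Real.log (5 * M1 / ‖F c‖) ≤ K0) (hK1 : 1 ≤ K0) :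
    ∃ L : List ℂ, (∀ w ∈ L, F w = 0 ∧ w ≠ ρ ∧ ‖w - c‖ ≤ 17 / 10) ∧
      (L.length : ℝ) ≤ 13 * K0 ∧
      ∀ z : ℂ, ‖z - c‖ ≤ 8 / 5 → F z ≠ 0 →
        ‖deriv F z / F z - (z - ρ)⁻¹ - (L.map (fun w => (z - w)⁻¹)).sum‖ ≤ 10 ^ 6 * K0 := by
  obtain ⟨f, hf⟩ : ∃ f : ℂ → ℂ, f = dslope F ρ := ⟨_, rfl⟩
  have hfd : Differentiable ℂ f := by
    rw [hf, ← differentiableOn_univ]
    exact (Complex.differentiableOn_dslope univ_mem).2 hF.differentiableOn
  have hfF : ∀ z, F z = (z - ρ) * f z := by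
    intro z
    have := sub_smul_dslope F ρ z
    rw [hρ, sub_zero, smul_eq_mul] at this
    rw [hf, this]
  have hfρ : f ρ = deriv F ρ := by rw [hf, dslope_same]
  have hf0 : f ρ ≠ 0 := by rw [hfρ]; exact hρ'
  have hfz : ∀ w, f w = 0 ↔ (F w = 0 ∧ w ≠ ρ) := by
    intro w
    constructor
    · intro h
      refine ⟨by rw [hfF, h, mul_zero], ?_⟩
      rintro rfl
      exact hf0 h
    · rintro ⟨h1, h2⟩
      rw [hfF] at h1
      exact (mul_eq_zero.1 h1).resolve_left (sub_ne_zero.2 h2)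
  have hFc0 : 0 < ‖F c‖ := norm_pos_iff.2 hFc
  have hM1 : 0 < M1 := hFc0.trans_le (hM c (mem_closedBall_self (by norm_num)))
  have hM2 : ∀ z ∈ closedBall c (37 / 20), ‖f z‖ ≤ 3 * M1 := by
    intro z hz
    have hfar : ∀ w : ℂ, w ∈ closedBall c (37 / 20) → 7 / 20 ≤ ‖w - ρ‖ → ‖f w‖ ≤ 3 * M1 := by
      intro w hw hwρ
      have h1 := hM w hw
      rw [hfF, norm_mul] at h1
      have h2 : 7 / 20 * ‖f w‖ ≤ M1 := le_trans (mul_le_mul_of_nonneg_right hwρ (norm_nonneg _)) h1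
      linarith
    rcases le_or_gt (7 / 20) ‖z - ρ‖ with h | h
    · exact hfar z hz h
    · have h1 : ∀ w ∈ frontier (ball ρ (7 / 20)), ‖f w‖ ≤ 3 * M1 := by
        intro w hw
        rw [frontier_ball _ (by norm_num), mem_sphere, dist_eq_norm] at hw
        refine hfar w ?_ hw.ge
        rw [mem_closedBall, dist_eq_norm]
        calc ‖w - c‖ = ‖(w - ρ) + (ρ - c)‖ := by ring_nf
          _ ≤ ‖w - ρ‖ + ‖ρ - c‖ := norm_add_le _ _
          _ ≤ 37 / 20 := by rw [hw, hρc]; norm_num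
      refine Complex.norm_le_of_forall_mem_frontier_norm_le isBounded_ball
        hfd.diffContOnCl h1 ?_
      exact subset_closure (by rw [mem_ball, dist_eq_norm]; exact h)
  have hfc : f c ≠ 0 := by
    intro h
    exact hFc ((hfz c).1 h).1
  have hfcn : ‖F c‖ = 3 / 2 * ‖f c‖ := by
    rw [hfF, norm_mul, norm_sub_rev, hρc]
  have hfc0 : 0 < ‖f c‖ := norm_pos_iff.2 hfc
  have hlog : Real.log (3 * M1 / ‖f c‖) ≤ K0 := by
    refine le_trans (Real.log_le_log (by positivity) ?_) hK0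
    rw [hfcn, div_le_div_iff₀ hfc0 (by positivity)]
    nlinarith
  obtain ⟨L, h1, h2, h3, h4⟩ := gen f hfd c hfc hM2 hlog hK1
  refine ⟨L, fun w hw => ⟨((hfz w).1 (h1 w hw).1).1, ((hfz w).1 (h1 w hw).1).2, (h1 w hw).2⟩, h3,
    fun z hz hFz => ?_⟩
  have hz' : z - ρ ≠ 0 := by
    intro h
    rw [hfF, h, zero_mul] at hFz
    exact hFz rfl
  have hfz0 : f z ≠ 0 := by
    intro h
    rw [hfF, h, mul_zero] at hFz
    exact hFz rfl
  have h5 := h4 z hz hfz0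
  have e : deriv F z / F z - (z - ρ)⁻¹ = deriv f z / f z := by
    have h1 : F = fun z => (z - ρ) * f z := funext hfF
    have h2 : HasDerivAt (fun z => (z - ρ) * f z) (1 * f z + (z - ρ) * deriv f z) z :=
      ((hasDerivAt_id z).sub_const ρ).mul (hfd z).hasDerivAt
    rw [h1, h2.deriv]
    field_simp
    ring
  rw [e]
  exact h5

/-- a zero of the derivative near the line gives two close zeros -/
theorem bwd : ∃ t0 : ℝ, 20 ≤ t0 ∧ ∀ s : ℂ, t0 ≤ s.im → deriv riemannZeta s = 0 →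
    |s.re - 1 / 2| * (10 ^ 30 * Real.log s.im ^ 2) ≤ 1 →
    (∀ w : ℂ, riemannZeta w = 0 → 0 < w.re → w.re < 1 → s.im - 3 ≤ w.im →
      w.re = 1 / 2 ∧ deriv riemannZeta w ≠ 0) →
    ∃ a b : ℝ, a < b ∧ riemannZeta (1 / 2 + I * a) = 0 ∧ riemannZeta (1 / 2 + I * b) = 0 ∧
      s.im - 1 ≤ a ∧ b ≤ s.im + 1 ∧
      b - a ≤ 10 ^ 9 * Real.log s.im * Real.sqrt |s.re - 1 / 2| := by
  obtain ⟨t0, h0, hGre⟩ := G_re
  refine ⟨max 20 t0, le_max_left _ _, ?_⟩
  intro s hs hds hδ hgood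
  obtain ⟨t, ht⟩ : ∃ t : ℝ, t = s.im := ⟨_, rfl⟩
  rw [← ht] at hs hδ hgood ⊢
  have ht20 : 20 ≤ t := (le_max_left _ _).trans hs
  have htt0 : t0 ≤ t := (le_max_right _ _).trans hs
  have hlt := (zeta_M (by linarith : (10 : ℝ) ≤ t)).2.2.2
  obtain ⟨ℓ, hℓ⟩ : ∃ ℓ : ℝ, ℓ = Real.log t := ⟨_, rfl⟩
  obtain ⟨δ, hδd⟩ : ∃ δ : ℝ, δ = |s.re - 1 / 2| := ⟨_, rfl⟩
  rw [← hℓ] at hδ hlt ⊢
  rw [← hδd] at hδ ⊢
  have hδ0 : 0 ≤ δ := by rw [hδd]; exact abs_nonneg _
  have hδs : δ ≤ 1 / 10 ^ 30 := by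
    rw [le_div_iff₀ (by norm_num)]
    nlinarith
  obtain ⟨s1, hs1⟩ : ∃ s1 : ℂ, s1 = 1 / 2 + I * t := ⟨_, rfl⟩
  have hs1re : s1.re = 1 / 2 := by rw [hs1]; simp
  have hs1im : s1.im = t := by rw [hs1]; simp
  have hss1 : ‖s - s1‖ = δ := by
    have : s - s1 = ((s.re - 1 / 2 : ℝ) : ℂ) := by
      apply Complex.ext
      · simp [hs1re]
      · simp [hs1im, ht]
    rw [this, Complex.norm_real, Real.norm_eq_abs, hδd]
  -- `s` is not a zero
  have hsre : |s.re - 1 / 2| ≤ 1 / 10 ^ 30 := by rw [← hδd]; exact hδs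
  have hsre' := abs_le.1 hsre
  have hsz : riemannZeta s ≠ 0 := by
    intro h
    exact (hgood s h (by linarith) (by linarith) (by rw [← ht]; linarith)).2 hds
  have hGs : G s = 0 := by
    unfold G
    rw [hds, zero_div]
  -- the square root
  obtain ⟨q, hq⟩ : ∃ q : ℝ, q = Real.sqrt δ := ⟨_, rfl⟩
  have hq0 : 0 ≤ q := by rw [hq]; exact Real.sqrt_nonneg _
  have hq2 : q ^ 2 = δ := by rw [hq, Real.sq_sqrt hδ0]
  have hqs : q * ℓ ≤ 1 / 10 ^ 15 := by
    have h1 : (q * ℓ) ^ 2 ≤ (1 / 10 ^ 15) ^ 2 := by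
      rw [mul_pow, hq2]
      have : δ * ℓ ^ 2 ≤ 1 / 10 ^ 30 := by
        rw [le_div_iff₀ (by norm_num)]
        linarith
      refine this.trans ?_
      norm_num
    exact abs_le_of_sq_le_sq' h1 (by norm_num) |>.2
  have hqs1 : q ≤ 1 / 10 ^ 15 := by nlinarith
  rw [← hq]
  have hδ1 : 0 < δ := by
    rcases hδ0.lt_or_eq with h | h
    · exact h
    · exfalso
      have hse : s = s1 := by
        rw [← sub_eq_zero, ← norm_eq_zero, hss1, ← h]
      have h1 := hGre t htt0 (by rw [← hs1, ← hse]; exact hsz)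
      rw [← hs1, ← hse, hGs, ← hℓ] at h1
      simp at h1
      linarith
  have hqpos : 0 < q := by rw [hq]; exact Real.sqrt_pos.2 hδ1
  -- the first zero
  obtain ⟨r, hr⟩ : ∃ r : ℝ, r = 20000 * q := ⟨_, rfl⟩
  have hr0 : 0 < r := by rw [hr]; positivity
  have hr1 : r ≤ 1 / 10 ^ 10 := by rw [hr]; linarith
  have hδr : δ ≤ r := by rw [hr, ← hq2]; nlinarith
  have hone : ∃ w : ℂ, riemannZeta w = 0 ∧ w.re = 1 / 2 ∧ t - 2 ≤ w.im ∧ |w.im - t| < r := by
    by_contra hcon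
    push Not at hcon
    obtain ⟨hA, hB, -⟩ := disc (t := t) (r := r) (by linarith) hr0 (by linarith)
      (fun w h1 h2 h3 h4 => (hgood w h1 h2 h3 (by linarith)).1) hcon
    rw [← hs1, ← hℓ] at hB
    rw [← hs1] at hA
    have hr2 : 0 < r / 2 := by positivity
    have hGd : DifferentiableOn ℂ G (ball s1 (r / 2)) := fun z hz =>
      (hA z (ball_subset_ball (by linarith) hz)).2.differentiableWithinAt
    have hs1b : s1 ∈ ball s1 (r / 2) := mem_ball_self hr2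
    have hmaps : MapsTo G (ball s1 (r / 2)) (closedBall (G s1) (2 * (10 ^ 7 * ℓ / r))) := by
      intro z hz
      rw [mem_closedBall, dist_eq_norm]
      refine (norm_sub_le _ _).trans ?_
      linarith [hB z hz, hB s1 hs1b]
    have hsb : s ∈ ball s1 (r / 2) := by
      rw [mem_ball, dist_eq_norm, hss1]
      rw [hr, ← hq2]
      nlinarith
    have h1 := Complex.dist_le_div_mul_dist_of_mapsTo_ball hGd hmaps hsb
    rw [dist_eq_norm, dist_eq_norm, hss1, hGs, zero_sub, norm_neg] at h1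
    have h2 := hGre t htt0 (by rw [← hs1]; exact (hA s1 (mem_ball_self hr0)).1)
    rw [← hs1, ← hℓ] at h2
    have h3 := Complex.abs_re_le_norm (G s1)
    have h4 := neg_abs_le (G s1).re
    have h5 : 2 * (10 ^ 7 * ℓ / r) / (r / 2) * δ = 4 * 10 ^ 7 * ℓ / 20000 ^ 2 := by
      rw [hr, ← hq2]
      field_simp
      ring
    rw [h5] at h1
    have h6 : ℓ / 4 ≤ 4 * 10 ^ 7 * ℓ / 20000 ^ 2 := by linarith
    norm_num at h6
    linarith
  obtain ⟨w1, a1, a2, a3, a4⟩ := hone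
  -- the second zero
  obtain ⟨t1, ht1⟩ : ∃ t1 : ℝ, t1 = w1.im := ⟨_, rfl⟩
  rw [← ht1] at a4
  have a5 := abs_le.1 a4.le
  have ht1' : 10 ≤ t1 := by linarith
  have hw1 : w1 = 1 / 2 + I * t1 := by
    apply Complex.ext
    · simp [a2]
    · simp [ht1]
  obtain ⟨c, hc⟩ : ∃ c : ℂ, c = 2 + t1 * I := ⟨_, rfl⟩
  obtain ⟨g1, g2, g3, g4⟩ := zeta_M ht1'
  rw [← hc] at g1 g2 g3
  have hℓ1 : Real.log t1 ≤ 2 * ℓ := by
    have h1 : t1 ≤ t ^ 2 := by nlinarith
    have h2 := Real.log_le_log (by linarith) h1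
    rw [Real.log_pow, ← hℓ] at h2
    exact_mod_cast h2
  have hw1c : ‖w1 - c‖ = 3 / 2 := by
    have : w1 - c = ((-3 / 2 : ℝ) : ℂ) := by
      rw [hw1, hc]; push_cast; ring
    rw [this, Complex.norm_real, Real.norm_eq_abs]
    norm_num
  have hw11 : w1 ≠ 1 := by rintro rfl; norm_num at a2
  have hsimple : deriv riemannZeta₁ w1 ≠ 0 := by
    rw [(z1_derivs hw11 a1).1]
    exact mul_ne_zero (sub_ne_zero.2 hw11) (hgood w1 a1 (by rw [a2]; norm_num)
      (by rw [a2]; norm_num) (by linarith)).2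
  obtain ⟨L, l1, l2, l3⟩ := rem riemannZeta₁ differentiable_riemannZeta₁ c w1
    (M1 := 11 * (t1 + 6) ^ 2) (K0 := 5 * Real.log t1) (by rw [z1_mul hw11, a1, mul_zero]) hw1c
    hsimple g1 g2 g3 (by linarith)
  have hs01 : s ≠ 1 := by
    intro h
    rw [h, Complex.one_im] at ht
    linarith
  have hsw : ‖s - w1‖ ≤ 2 * r := by
    have h1 : ‖s1 - w1‖ ≤ r := by
      have : s1 - w1 = ((t - t1 : ℝ) : ℂ) * I := by
        apply Complex.ext
        · simp [hs1re, a2]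
        · simp [hs1im, ht1]
      rw [this, norm_mul, Complex.norm_I, mul_one, Complex.norm_real, Real.norm_eq_abs,
        abs_sub_comm]
      exact a4.le
    calc ‖s - w1‖ = ‖(s - s1) + (s1 - w1)‖ := by ring_nf
      _ ≤ ‖s - s1‖ + ‖s1 - w1‖ := norm_add_le _ _
      _ ≤ 2 * r := by rw [hss1]; linarith
  have hsc : ‖s - c‖ ≤ 8 / 5 := by
    calc ‖s - c‖ = ‖(s - w1) + (w1 - c)‖ := by ring_nf
      _ ≤ ‖s - w1‖ + ‖w1 - c‖ := norm_add_le _ _
      _ ≤ 8 / 5 := by rw [hw1c]; linarith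
  have hz1s : riemannZeta₁ s ≠ 0 := by
    rw [z1_mul hs01]
    exact mul_ne_zero (sub_ne_zero.2 hs01) hsz
  have h5 := l3 s hsc hz1s
  rw [z1_ld hs01 hsz, hGs, add_zero] at h5
  have h6 : ‖1 / (s - 1)‖ ≤ 1 := by
    rw [norm_div, norm_one]
    have h7 := Complex.abs_im_le_norm (s - 1)
    rw [Complex.sub_im, Complex.one_im, sub_zero, ← ht] at h7
    have h8 := le_abs_self t
    rw [div_le_one (by linarith)]
    linarith
  have hsw0 : 0 < ‖s - w1‖ := by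
    rw [norm_pos_iff, sub_ne_zero]
    rintro rfl
    exact hsz a1
  have h7 : 1 / (2 * r) ≤ ‖(s - w1)⁻¹‖ := by
    rw [norm_inv, inv_eq_one_div]
    exact one_div_le_one_div_of_le hsw0 hsw
  obtain ⟨Q, hQ⟩ : ∃ Q : ℂ, Q = (L.map (fun w => (s - w)⁻¹)).sum := ⟨_, rfl⟩
  rw [← hQ] at h5
  have h8 : 1 / (2 * r) ≤ 1 + 10 ^ 6 * (5 * Real.log t1) + ‖Q‖ := by
    have e : (s - w1)⁻¹ = 1 / (s - 1) - (1 / (s - 1) - (s - w1)⁻¹ - Q) - Q := by ring
    rw [e] at h7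
    refine h7.trans ((norm_sub_le _ _).trans ?_)
    have := norm_sub_le (1 / (s - 1)) (1 / (s - 1) - (s - w1)⁻¹ - Q)
    linarith
  have htwo : ∃ w ∈ L, ‖s - w‖ < 1040 * ℓ * r := by
    by_contra hcon
    push Not at hcon
    have h9 := sum_inv_le L s (r := 1040 * ℓ * r) (by positivity) hcon
    rw [← hQ] at h9
    have h10 : (L.length : ℝ) / (1040 * ℓ * r) ≤ 1 / (8 * r) := by
      rw [div_le_div_iff₀ (by positivity) (by positivity)]
      nlinarith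
    have h11 : 1 + 10 ^ 6 * (5 * Real.log t1) ≤ 1 / (8 * r) := by
      rw [le_div_iff₀ (by positivity)]
      have h12 : 1 + 10 ^ 6 * (5 * Real.log t1) ≤ 2 * 10 ^ 7 * ℓ := by linarith
      have h13 : (1 + 10 ^ 6 * (5 * Real.log t1)) * (8 * r) ≤ 2 * 10 ^ 7 * ℓ * (8 * r) := by
        gcongr
      refine h13.trans ?_
      rw [hr]
      nlinarith
    have e1 : 1 / (2 * r) = 4 * (1 / (8 * r)) := by field_simp; norm_num
    have e2 : 0 < 1 / (8 * r) := by positivity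
    linarith
  obtain ⟨w2, b1, b2⟩ := htwo
  obtain ⟨b3, b4, b5⟩ := l1 w2 b1
  obtain ⟨b6, b7⟩ := z1_zero b3
  have hrℓ : 1040 * ℓ * r ≤ 1 / 10 := by
    rw [hr]
    nlinarith
  have b8 := (Complex.abs_im_le_norm (s - w2)).trans b2.le
  rw [Complex.sub_im, ← ht] at b8
  have b9 := abs_le.1 b8
  have b8' := (Complex.abs_re_le_norm (s - w2)).trans b2.le
  rw [Complex.sub_re] at b8'
  have b9' := abs_le.1 b8'
  have b10 := (hgood w2 b7 (by linarith) (re_lt_one b7) (by linarith)).1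
  have hw2 : w2 = 1 / 2 + I * w2.im := by
    apply Complex.ext
    · simp [b10]
    · simp
  have hne : t1 ≠ w2.im := by
    intro h
    apply b4
    rw [hw2, hw1, h]
  have hfin : ∀ x : ℝ, |x| ≤ r + 1040 * ℓ * r → x ≤ 10 ^ 9 * ℓ * q := by
    intro x hx
    refine (le_abs_self x).trans (hx.trans ?_)
    rw [hr]
    have : 0 < ℓ * q := by positivity
    nlinarith
  have hdiff : |t1 - w2.im| ≤ r + 1040 * ℓ * r := by
    have : t1 - w2.im = (t1 - t) + (t - w2.im) := by ring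
    rw [this]
    exact (abs_add_le _ _).trans (by linarith)
  rcases lt_or_gt_of_ne hne with h | h
  · refine ⟨t1, w2.im, h, by rw [← hw1]; exact a1, by rw [← hw2]; exact b7, by linarith,
      by linarith, ?_⟩
    apply hfin
    rw [abs_sub_comm]
    exact hdiff
  · refine ⟨w2.im, t1, h, by rw [← hw2]; exact b7, by rw [← hw1]; exact a1, by linarith,
      by linarith, ?_⟩
    exact hfin _ hdiff

end Pool.Agent.Q85.Gap
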