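import Pool.Agent.Q85.Gap.Ord

/-! # The exact formula for the exponent of the smallest gaps -/

set_option autoImplicit false

open Filter Topology Set Complex

namespace Pool.Agent.Q85.Gap

open SG (ord NZ zmult ord_le_iff ord_mono le_NZ_ord ord_pos ord_tendsto)

/-- `log (γ_{n+1} - γ_n) / log n`, with `log 0 = -∞` -/
noncomputable def gapRatio (n : ℕ) : EReal :=
  if ord (n + 1) = ord n then ⊥
  else ((Real.log (ord (n + 1) - ord n) / Real.log n : ℝ) : EReal)

/-- the exponent of the smallest gaps -/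
noncomputable def alpha : EReal := liminf gapRatio atTop

lemma liminf_le_of (u v : ℕ → EReal) (h : ∀ c c' : ℝ, c < c' →
    (∀ᶠ n in atTop, (c' : EReal) < u n) → ∀ᶠ n in atTop, (c : EReal) ≤ v n) :
    liminf u atTop ≤ liminf v atTop := by
  refine le_of_forall_lt fun a ha => ?_
  obtain ⟨x, hx1, hx2⟩ := EReal.lt_iff_exists_real_btwn.1 ha
  obtain ⟨c', hc1, hc2⟩ := EReal.lt_iff_exists_real_btwn.1 hx2
  have h1 := eventually_lt_of_lt_liminf hc2
  have h2 := h x c' (by exact_mod_cast hc1) h1
  exact hx1.trans_le (le_liminf_of_le (by isBoundedDefault) h2)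

/-- the smaller of the two adjacent gaps, cut off at `1/10` -/
noncomputable def dn (n : ℕ) : ℝ := min (1 / 10) (min (ord n - ord (n - 1)) (ord (n + 1) - ord n))

/-- the local estimate in terms of the indices -/
theorem index_est {T1 : ℝ} (hT1 : 1 ≤ T1) (hg : ∀ s : ℂ, riemannZeta s = 0 →
    0 < s.re → s.re < 1 → T1 ≤ s.im → s.re = 1 / 2 ∧ deriv riemannZeta s ≠ 0) :
    ∀ᶠ n : ℕ in atTop, 0 < ord (n + 1) - ord n ∧ 0 < dn n ∧
      |2 * Real.log (1 / dn n) - Real.log (1 + ‖B (1 / 2 + I * ord n)‖)| ≤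
        2 * Real.log (10 ^ 9 * Real.log (ord n)) := by
  have h0 := ord_tendsto.eventually_ge_atTop (T1 + 20)
  obtain ⟨N, hN⟩ := eventually_atTop.1 h0
  filter_upwards [eventually_ge_atTop (N + 10)] with n hn
  obtain ⟨m, rfl⟩ : ∃ m, n = m + 1 := ⟨n - 1, by omega⟩
  have hm := hN m (by omega)
  have hm1 := hN (m + 1) (by omega)
  have hg1 := gap_pos hT1 hg (by omega : 1 ≤ m) (by linarith)
  have hg2 := gap_pos hT1 hg (by omega : 1 ≤ m + 1) (by linarith)
  have hd : dn (m + 1) = min (1 / 10) (min (ord (m + 1) - ord m) (ord (m + 1 + 1) - ord (m + 1))) :=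
    rfl
  have hd0 : 0 < dn (m + 1) := by
    rw [hd]
    exact lt_min (by norm_num) (lt_min (by linarith) (by linarith))
  refine ⟨by linarith, hd0, ?_⟩
  -- points on the line
  have hpt : ∀ k : ℕ, 1 ≤ k → T1 ≤ ord k → riemannZeta (1 / 2 + I * ord k) = 0 ∧
      deriv riemannZeta (1 / 2 + I * ord k) ≠ 0 := by
    intro k hk hT
    obtain ⟨s, h1, h2, h3, h4⟩ := exists_zero_at hk
    obtain ⟨g1, g2⟩ := hg s h1 h2 h3 (by rw [h4]; exact hT)
    have e : s = 1 / 2 + I * ord k := by
      apply Complex.ext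
      · simp [g1]
      · simp [h4]
    rw [← e]
    exact ⟨h1, g2⟩
  obtain ⟨p1, p2⟩ := hpt (m + 1) (by omega) (by linarith)
  refine local_est (by linarith) p1 p2 hd0 (by rw [hd]; exact min_le_left _ _) ?_ ?_ ?_
  · intro w h1 h2 h3 h4
    exact (hg w h1 h2 h3 (by linarith)).1
  · intro w h1 h2 h3
    rcases le_or_gt w.im 0 with h4 | h4
    · have h5 : dn (m + 1) ≤ 1 / 10 := by rw [hd]; exact min_le_left _ _
      have h6 := neg_abs_le (w.im - ord (m + 1))
      linarith
    · obtain ⟨k, hk1, hk2⟩ := exists_ord h1 (by rw [h2]; norm_num) (by rw [h2]; norm_num) h4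
      rcases lt_or_gt_of_ne h3 with h5 | h5
      · have h7 : k < m + 1 := ord_index (by omega) (by rw [hk2]; exact h5)
        have h8 : ord k ≤ ord m := ord_mono hk1 (by omega)
        have h9 : dn (m + 1) ≤ ord (m + 1) - ord m := by
          rw [hd]
          exact (min_le_right _ _).trans (min_le_left _ _)
        rw [hk2] at h8
        have := neg_abs_le (w.im - ord (m + 1))
        linarith
      · have h7 : m + 1 < k := ord_index hk1 (by rw [hk2]; exact h5)
        have h8 : ord (m + 1 + 1) ≤ ord k := ord_mono (by omega) (by omega)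
        have h9 : dn (m + 1) ≤ ord (m + 1 + 1) - ord (m + 1) := by
          rw [hd]
          exact (min_le_right _ _).trans (min_le_right _ _)
        rw [hk2] at h8
        have := le_abs_self (w.im - ord (m + 1))
        linarith
  · intro hlt
    have hm0 := (hpt m (by omega) (by linarith)).1
    have hm2 := (hpt (m + 1 + 1) (by omega) (by linarith)).1
    rcases le_total (ord (m + 1) - ord m) (ord (m + 1 + 1) - ord (m + 1)) with h | h
    · refine ⟨1 / 2 + I * ord m, hm0, by simp, ?_, ?_⟩
      · simp only [add_im, mul_im, I_re, I_im, ofReal_re, ofReal_im]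
        norm_num
        exact hg1.ne
      · have h5 : dn (m + 1) = ord (m + 1) - ord m := by
          rw [hd, min_eq_left h] at hlt ⊢
          rcases min_choice (1 / 10 : ℝ) (ord (m + 1) - ord m) with h6 | h6
          · rw [h6] at hlt; exact absurd hlt (lt_irrefl _)
          · exact h6
        rw [h5]
        simp only [add_im, mul_im, I_re, I_im, ofReal_re, ofReal_im]
        norm_num
        rw [abs_sub_comm, abs_of_pos (by linarith)]
    · refine ⟨1 / 2 + I * ord (m + 1 + 1), hm2, by simp, ?_, ?_⟩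
      · simp only [add_im, mul_im, I_re, I_im, ofReal_re, ofReal_im]
        norm_num
        exact hg2.ne'
      · have h5 : dn (m + 1) = ord (m + 1 + 1) - ord (m + 1) := by
          rw [hd, min_eq_right h] at hlt ⊢
          rcases min_choice (1 / 10 : ℝ) (ord (m + 1 + 1) - ord (m + 1)) with h6 | h6
          · rw [h6] at hlt; exact absurd hlt (lt_irrefl _)
          · exact h6
        rw [h5]
        simp only [add_im, mul_im, I_re, I_im, ofReal_re, ofReal_im]
        norm_num
        exact hg2.le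

/-- the error term -/
theorem err_small {ε : ℝ} (hε : 0 < ε) : ∀ᶠ n : ℕ in atTop,
    Real.log (10 ^ 9 * Real.log (ord n)) ≤ ε * Real.log n := by
  have h1 := Real.isLittleO_log_id_atTop.bound (show 0 < ε / 10 ^ 9 by positivity)
  have h2 : Tendsto (fun n : ℕ => 10 ^ 9 * Real.log (n : ℝ)) atTop atTop :=
    (Real.tendsto_log_atTop.comp tendsto_natCast_atTop_atTop).const_mul_atTop (by norm_num)
  filter_upwards [h2.eventually h1, ord_le_self, ord_tendsto.eventually_ge_atTop 10,
    eventually_ge_atTop 10] with n h3 h4 h5 h6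
  have h7 : (10 : ℝ) ≤ n := by exact_mod_cast h6
  have hl0 : 0 < Real.log (ord n) := Real.log_pos (by linarith)
  have hl1 : Real.log (ord n) ≤ Real.log n := Real.log_le_log (by linarith) h4
  calc Real.log (10 ^ 9 * Real.log (ord n)) ≤ Real.log (10 ^ 9 * Real.log n) := by
        apply Real.log_le_log (by positivity)
        gcongr
    _ ≤ ‖Real.log (10 ^ 9 * Real.log n)‖ := Real.le_norm_self _
    _ ≤ ε / 10 ^ 9 * ‖id (10 ^ 9 * Real.log (n : ℝ))‖ := h3
    _ = ε * Real.log n := by
        rw [id, Real.norm_eq_abs, abs_of_nonneg (by positivity)]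
        ring

/-- the quantity in the formula -/
noncomputable def vB (n : ℕ) : ℝ := -(Real.log (1 + ‖B (1 / 2 + I * ord n)‖) / (2 * Real.log n))

/-- the comparison of the logarithm of `dn` with `vB` -/
theorem compare {T1 : ℝ} (hT1 : 1 ≤ T1) (hg : ∀ s : ℂ, riemannZeta s = 0 →
    0 < s.re → s.re < 1 → T1 ≤ s.im → s.re = 1 / 2 ∧ deriv riemannZeta s ≠ 0) {ε : ℝ}
    (hε : 0 < ε) : ∀ᶠ n : ℕ in atTop, 0 < ord (n + 1) - ord n ∧ 0 < dn n ∧ 0 < Real.log n ∧
      Real.log (dn n) / Real.log n - ε ≤ vB n ∧ vB n - ε ≤ Real.log (dn n) / Real.log n := by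
  filter_upwards [index_est hT1 hg, err_small hε, eventually_ge_atTop 10] with n h1 h2 h3
  obtain ⟨h4, h5, h6⟩ := h1
  have h7 : (10 : ℝ) ≤ n := by exact_mod_cast h3
  have hL : 0 < Real.log n := Real.log_pos (by linarith)
  refine ⟨h4, h5, hL, ?_⟩
  rw [one_div, Real.log_inv] at h6
  obtain ⟨h8, h9⟩ := abs_le.1 h6
  unfold vB
  have e : ∀ x : ℝ, -(x / (2 * Real.log n)) = (-x / 2) / Real.log n := by
    intro x; field_simp
  rw [e]
  clear e h6
  generalize Real.log (1 + ‖B (1 / 2 + I * ord n)‖) = lB at h8 h9 ⊢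
  generalize Real.log (10 ^ 9 * Real.log (ord n)) = P at h2 h8 h9
  constructor
  · rw [sub_le_iff_le_add, div_le_iff₀ hL, add_mul, div_mul_cancel₀ _ hL.ne']
    linarith
  · rw [sub_le_iff_le_add, div_le_iff₀ hL, add_mul, div_mul_cancel₀ _ hL.ne']
    linarith

theorem alpha_bot (hinf : {s : ℂ | Bad s}.Infinite) : alpha = ⊥ := by
  rw [← le_bot_iff]
  unfold alpha
  refine liminf_le_of_frequently_le ((gaps_zero hinf).mono fun n hn => ?_) (by isBoundedDefault)
  unfold gapRatio
  rw [if_pos hn]

theorem alpha_formula (hfin : {s : ℂ | Bad s}.Finite) :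
    alpha = liminf (fun n : ℕ => (vB n : EReal)) atTop := by
  obtain ⟨T1, hT1, hg⟩ := large_good hfin
  apply le_antisymm
  · apply liminf_le_of
    intro c c' hcc hev
    -- the exponent is not positive
    have hc' : c' < 0 := by
      obtain ⟨n, h1, h2, h3, h4⟩ := (gap_lt_one.and_eventually (hev.and ((compare hT1 hg
        (ε := 1) one_pos).and (eventually_ge_atTop 10)))).exists
      obtain ⟨h5, -, h6, -⟩ := h3
      unfold gapRatio at h2
      rw [if_neg (by linarith)] at h2
      have h7 : c' < Real.log (ord (n + 1) - ord n) / Real.log n := by exact_mod_cast h2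
      have h8 : Real.log (ord (n + 1) - ord n) < 0 := Real.log_neg h5 h1
      exact h7.trans (div_neg_of_neg_of_pos h8 h6)
    have hev1 : ∀ᶠ n : ℕ in atTop, (c' : EReal) < gapRatio (n - 1) := by
      have : Tendsto (fun n : ℕ => n - 1) atTop atTop := tendsto_sub_atTop_nat 1
      exact this.eventually hev
    have hcomp1 : ∀ᶠ n : ℕ in atTop, 0 < ord (n - 1 + 1) - ord (n - 1) := by
      have : Tendsto (fun n : ℕ => n - 1) atTop atTop := tendsto_sub_atTop_nat 1
      exact (this.eventually (compare hT1 hg (ε := 1) one_pos)).mono fun n hn => hn.1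
    have hbig : ∀ᶠ n : ℕ in atTop, c' * Real.log n ≤ Real.log (1 / 10) := by
      have h1 : Tendsto (fun n : ℕ => -c' * Real.log (n : ℝ)) atTop atTop :=
        (Real.tendsto_log_atTop.comp tendsto_natCast_atTop_atTop).const_mul_atTop (by linarith)
      filter_upwards [h1.eventually_ge_atTop (-Real.log (1 / 10))] with n hn
      linarith
    filter_upwards [hev, hev1, hcomp1, compare hT1 hg (ε := c' - c) (by linarith), hbig,
      eventually_ge_atTop 10] with n h1 h2 h3 h4 h5 h6
    obtain ⟨a1, a2, a3, a4, a5⟩ := h4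
    obtain ⟨m, rfl⟩ : ∃ m, n = m + 1 := ⟨n - 1, by omega⟩
    rw [Nat.add_sub_cancel] at h2 h3
    unfold gapRatio at h1 h2
    rw [if_neg (by linarith)] at h1 h2
    have h7 : c' < Real.log (ord (m + 1 + 1) - ord (m + 1)) / Real.log ((m + 1 : ℕ) : ℝ) := by
      exact_mod_cast h1
    have h8 : c' < Real.log (ord (m + 1) - ord m) / Real.log (m : ℝ) := by exact_mod_cast h2
    have hm : (9 : ℝ) ≤ m := by
      have : 9 ≤ m := by omega
      exact_mod_cast this
    have hLm : 0 < Real.log (m : ℝ) := Real.log_pos (by linarith)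
    have hLL : Real.log (m : ℝ) ≤ Real.log ((m + 1 : ℕ) : ℝ) := by
      apply Real.log_le_log (by linarith)
      push_cast
      linarith
    rw [lt_div_iff₀ a3] at h7
    rw [lt_div_iff₀ hLm] at h8
    have h9 : c' * Real.log ((m + 1 : ℕ) : ℝ) ≤ Real.log (dn (m + 1)) := by
      have hd : dn (m + 1) = min (1 / 10) (min (ord (m + 1) - ord m)
        (ord (m + 1 + 1) - ord (m + 1))) := rfl
      rw [hd]
      rcases min_choice (1 / 10 : ℝ) (min (ord (m + 1) - ord m)
        (ord (m + 1 + 1) - ord (m + 1))) with h | h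
      · rw [h]; exact h5
      · rw [h]
        rcases min_choice (ord (m + 1) - ord m) (ord (m + 1 + 1) - ord (m + 1)) with h' | h'
        · rw [h']
          nlinarith
        · rw [h']
          exact h7.le
    have h10 : c' ≤ Real.log (dn (m + 1)) / Real.log ((m + 1 : ℕ) : ℝ) := by
      rw [le_div_iff₀ a3]; exact h9
    have h11 : c ≤ vB (m + 1) := by linarith
    exact_mod_cast h11
  · apply liminf_le_of
    intro c c' hcc hev
    filter_upwards [hev, compare hT1 hg (ε := c' - c) (by linarith)] with n h1 h2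
    obtain ⟨a1, a2, a3, a4, a5⟩ := h2
    have h3 : c' < vB n := by exact_mod_cast h1
    unfold gapRatio
    rw [if_neg (by linarith)]
    have h4 : dn n ≤ ord (n + 1) - ord n := (min_le_right _ _).trans (min_le_right _ _)
    have h5 : Real.log (dn n) ≤ Real.log (ord (n + 1) - ord n) := Real.log_le_log a2 h4
    have h6 : Real.log (dn n) / Real.log n ≤ Real.log (ord (n + 1) - ord n) / Real.log n := by
      gcongr
    have h7 : c ≤ Real.log (ord (n + 1) - ord n) / Real.log n := by linarith
    exact_mod_cast h7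

end Pool.Agent.Q85.Gap
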