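import Pool.Agent.Q85.Gap.Pr

/-! # Close zeros of zeta give a zero of the derivative near the line -/

set_option autoImplicit false

open Filter Topology Set Metric Complex

namespace Pool.Agent.Q85.Gap

/-- the sum over the zeros on the line -/
lemma sum_sq_line (L : List ℂ) {t : ℝ} (hL : ∀ w ∈ L, w.re = 1 / 2) :
    (L.map (fun w => ((1 / 2 + I * t - w) ^ 2)⁻¹)).sum =
      -(((L.map (fun w => ((w.im - t) ^ 2)⁻¹)).sum : ℝ) : ℂ) := by
  induction L with
  | nil => simp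
  | cons a L ih =>
    have h1 := ih fun w hw => hL w (List.mem_cons_of_mem _ hw)
    have h2 := hL a List.mem_cons_self
    have h5 : (1 / 2 + I * t : ℂ) - a = -(((a.im - t : ℝ) : ℂ) * I) := by
      apply Complex.ext
      · simp [h2]
      · simp
    simp only [List.map_cons, List.sum_cons, h1, h5]
    rw [neg_sq, mul_pow, I_sq, mul_neg_one, inv_neg]
    push_cast
    ring

/-- the logarithmic derivative in a disc without zeros -/
theorem disc {t r : ℝ} (ht : 10 ≤ t) (hr : 0 < r) (hr1 : r ≤ 1 / 10)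
    (hline : ∀ w : ℂ, riemannZeta w = 0 → 0 < w.re → w.re < 1 → t - 2 ≤ w.im → w.re = 1 / 2)
    (hsep : ∀ w : ℂ, riemannZeta w = 0 → w.re = 1 / 2 → t - 2 ≤ w.im → r ≤ |w.im - t|) :
    (∀ z ∈ ball (1 / 2 + I * t : ℂ) r, riemannZeta z ≠ 0 ∧ DifferentiableAt ℂ G z) ∧
    (∀ z ∈ ball (1 / 2 + I * t : ℂ) (r / 2), ‖G z‖ ≤ 10 ^ 7 * Real.log t / r) ∧
    ((∃ w : ℂ, riemannZeta w = 0 ∧ w.re = 1 / 2 ∧ |w.im - t| = r) →
      1 / r ^ 2 - 2 * 10 ^ 7 * Real.log t / r ≤ ‖deriv G (1 / 2 + I * t)‖) := by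
  obtain ⟨s0, hs0⟩ : ∃ s0 : ℂ, s0 = 1 / 2 + I * t := ⟨_, rfl⟩
  obtain ⟨c, hc⟩ : ∃ c : ℂ, c = 2 + t * I := ⟨_, rfl⟩
  obtain ⟨L, l1, l2, l3, l4⟩ := zloc ht
  have hlt := (zeta_M ht).2.2.2
  rw [← hc] at l2 l4
  rw [← hs0]
  have hsc : ‖s0 - c‖ = 3 / 2 := by
    have : s0 - c = ((-3 / 2 : ℝ) : ℂ) := by
      rw [hs0, hc]; push_cast; ring
    rw [this, Complex.norm_real, Real.norm_eq_abs]
    norm_num
  have hre0 : s0.re = 1 / 2 := by rw [hs0]; simp
  have him0 : s0.im = t := by rw [hs0]; simp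
  have hL : ∀ w ∈ L, w.re = 1 / 2 ∧ r ≤ |w.im - t| := by
    intro w hw
    obtain ⟨a1, a2, a3, a4, a5⟩ := l1 w hw
    have a6 := hline w a1 a2 a3 a4
    exact ⟨a6, hsep w a1 a6 a4⟩
  have hLd : ∀ w ∈ L, r ≤ ‖s0 - w‖ := by
    intro w hw
    have := Complex.abs_im_le_norm (s0 - w)
    rw [Complex.sub_im, him0, abs_sub_comm] at this
    exact (hL w hw).2.trans this
  have hnz : ∀ z ∈ ball s0 r, riemannZeta z ≠ 0 := by
    intro z hz h
    rw [mem_ball, dist_eq_norm] at hz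
    have b1 := (Complex.abs_re_le_norm (z - s0)).trans hz.le
    have b2 := (Complex.abs_im_le_norm (z - s0))
    rw [Complex.sub_re, hre0] at b1
    rw [Complex.sub_im, him0] at b2
    have b3 := abs_le.1 b1
    have b4 := abs_le.1 (b2.trans hz.le)
    have b5 := hline z h (by linarith) (by linarith) (by linarith)
    have b6 := hsep z h b5 (by linarith)
    linarith
  have hz1 : ∀ z ∈ ball s0 r, z ≠ 1 := by
    rintro z hz rfl
    rw [mem_ball, dist_eq_norm] at hz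
    have b2 := (Complex.abs_im_le_norm (1 - s0))
    rw [Complex.sub_im, him0, Complex.one_im] at b2
    have b4 := abs_le.1 (b2.trans hz.le)
    linarith
  have hGd : ∀ z ∈ ball s0 r, DifferentiableAt ℂ G z := by
    intro z hz
    exact (zeta_da (hz1 z hz)).deriv.differentiableAt.div (zeta_da (hz1 z hz)).differentiableAt
      (hnz z hz)
  have hzc : ∀ z ∈ ball s0 r, ‖z - c‖ ≤ 8 / 5 := by
    intro z hz
    rw [mem_ball, dist_eq_norm] at hz
    calc ‖z - c‖ = ‖(z - s0) + (s0 - c)‖ := by ring_nf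
      _ ≤ ‖z - s0‖ + ‖s0 - c‖ := norm_add_le _ _
      _ ≤ 8 / 5 := by rw [hsc]; linarith
  refine ⟨fun z hz => ⟨hnz z hz, hGd z hz⟩, ?_, ?_⟩
  · intro z hz
    have hz' : z ∈ ball s0 r := ball_subset_ball (by linarith) hz
    have h5 := l4 z (hzc z hz') (hnz z hz')
    rw [mem_ball, dist_eq_norm] at hz
    have h6 : ‖(L.map (fun w => (z - w)⁻¹)).sum‖ ≤ L.length / (r / 2) := by
      apply sum_inv_le L z (by linarith)
      intro w hw
      have a1 := hLd w hw
      have a2 : ‖s0 - w‖ ≤ ‖z - w‖ + ‖z - s0‖ := by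
        calc ‖s0 - w‖ = ‖(z - w) - (z - s0)‖ := by ring_nf
          _ ≤ _ := norm_sub_le _ _
      linarith
    have h7 : (L.length : ℝ) / (r / 2) ≤ 130 * Real.log t / r := by
      rw [div_le_div_iff₀ (by linarith) hr]
      nlinarith
    have h8 : ‖G z‖ ≤ 10 ^ 7 * Real.log t + 130 * Real.log t / r := by
      have e : G z = (G z - (L.map (fun w => (z - w)⁻¹)).sum) +
        (L.map (fun w => (z - w)⁻¹)).sum := by ring
      rw [e]
      refine (norm_add_le _ _).trans ?_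
      linarith
    refine h8.trans ?_
    have h9 : 10 ^ 7 * Real.log t ≤ 10 ^ 6 * Real.log t / r := by
      rw [le_div_iff₀ hr]
      nlinarith
    have h10 : 10 ^ 6 * Real.log t / r + 130 * Real.log t / r ≤ 10 ^ 7 * Real.log t / r := by
      rw [← add_div]
      gcongr
      linarith
    linarith
  · rintro ⟨w0, w1, w2, w3⟩
    have hLne : ∀ z ∈ ball s0 r, ∀ w ∈ L, z ≠ w := by
      rintro z hz w hw rfl
      exact hnz z hz (l1 z hw).1
    obtain ⟨h, hh⟩ : ∃ h : ℂ → ℂ, ∀ z, h z = G z - (L.map (fun w => (z - w)⁻¹)).sum :=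
      ⟨_, fun z => rfl⟩
    have hhd : ∀ z ∈ ball s0 r, HasDerivAt h
        (deriv G z - -(L.map (fun w => ((z - w) ^ 2)⁻¹)).sum) z := by
      intro z hz
      have h5 := ((hGd z hz).hasDerivAt).sub (sum_deriv L z (hLne z hz))
      refine h5.congr_of_eventuallyEq ?_
      exact Eventually.of_forall fun y => hh y
    have hb : s0 ∈ ball s0 r := mem_ball_self hr
    have hC := Complex.norm_deriv_le_of_forall_mem_sphere_norm_le (f := h) (c := s0) (R := r / 2)
      (C := 10 ^ 7 * Real.log t) (by positivity) (by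
        refine DifferentiableOn.diffContOnCl_ball (U := ball s0 r) ?_ ?_
        · intro z hz
          exact (hhd z hz).differentiableAt.differentiableWithinAt
        · exact closedBall_subset_ball (by linarith)) (fun z hz => by
        have hz' : z ∈ ball s0 r := by
          rw [mem_sphere] at hz
          rw [mem_ball, hz]
          linarith
        rw [hh]
        exact l4 z (hzc z hz') (hnz z hz'))
    rw [(hhd s0 hb).deriv] at hC
    have hsum := sum_sq_line L (t := t) fun w hw => (hL w hw).1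
    rw [← hs0] at hsum
    rw [hsum, neg_neg] at hC
    have hS : 1 / r ^ 2 ≤ (L.map (fun w => ((w.im - t) ^ 2)⁻¹)).sum := by
      have hwL : w0 ∈ L := by
        refine l2 w0 w1 (by rintro rfl; norm_num at w2) ?_
        have h5 : ‖w0 - s0‖ = r := by
          have : w0 - s0 = ((w0.im - t : ℝ) : ℂ) * I := by
            apply Complex.ext
            · simp [hre0, w2]
            · simp [him0]
          rw [this, norm_mul, Complex.norm_I, mul_one, Complex.norm_real, Real.norm_eq_abs, w3]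
        calc ‖w0 - c‖ = ‖(w0 - s0) + (s0 - c)‖ := by ring_nf
          _ ≤ ‖w0 - s0‖ + ‖s0 - c‖ := norm_add_le _ _
          _ ≤ 17 / 10 := by rw [hsc, h5]; linarith
      have h6 : ((w0.im - t) ^ 2)⁻¹ = 1 / r ^ 2 := by
        rw [← sq_abs, w3, inv_eq_one_div]
      rw [← h6]
      refine List.single_le_sum ?_ _ (List.mem_map.2 ⟨w0, hwL, rfl⟩)
      intro x hx
      rw [List.mem_map] at hx
      obtain ⟨w, -, rfl⟩ := hx
      positivity
    obtain ⟨S, hSd⟩ : ∃ S : ℝ, S = (L.map (fun w => ((w.im - t) ^ 2)⁻¹)).sum := ⟨_, rfl⟩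
    rw [← hSd] at hC hS
    have hS0 : 0 ≤ S := le_trans (by positivity) hS
    have h7 : ‖(S : ℂ)‖ ≤ ‖deriv G s0‖ + 10 ^ 7 * Real.log t / (r / 2) := by
      have e : (S : ℂ) = deriv G s0 - (deriv G s0 - S) := by ring
      rw [e]
      exact (norm_sub_le _ _).trans (by linarith)
    rw [Complex.norm_real, Real.norm_eq_abs, abs_of_nonneg hS0] at h7
    have h8 : 10 ^ 7 * Real.log t / (r / 2) = 2 * 10 ^ 7 * Real.log t / r := by
      field_simp
    linarith

/-- two close zeros give a zero of the derivative near the line -/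
theorem fwd : ∃ t0 : ℝ, 10 ≤ t0 ∧ ∀ t r : ℝ, t0 ≤ t → 0 < r →
    r * (10 ^ 11 * Real.log t ^ 2) ≤ 1 →
    (∀ w : ℂ, riemannZeta w = 0 → 0 < w.re → w.re < 1 → t - 2 ≤ w.im → w.re = 1 / 2) →
    (∀ w : ℂ, riemannZeta w = 0 → w.re = 1 / 2 → t - 2 ≤ w.im → r ≤ |w.im - t|) →
    (∃ w : ℂ, riemannZeta w = 0 ∧ w.re = 1 / 2 ∧ |w.im - t| = r) →
    deriv completedRiemannZeta (1 / 2 + I * t) = 0 →
    ∃ z : ℂ, deriv riemannZeta z = 0 ∧ ‖z - (1 / 2 + I * t)‖ ≤ 16 * r ^ 2 * Real.log t := by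
  obtain ⟨t0, h0, hlam⟩ := lam_line
  refine ⟨t0, h0, ?_⟩
  intro t r ht hr hrl hline hsep hnear hcr
  have ht10 : 10 ≤ t := h0.trans ht
  have hlt := (zeta_M ht10).2.2.2
  obtain ⟨ℓ, hℓ⟩ : ∃ ℓ : ℝ, ℓ = Real.log t := ⟨_, rfl⟩
  have hlam1 := (hlam t ht).1
  rw [← hℓ] at hlt hrl hlam1 ⊢
  have hrℓ : r * ℓ ^ 2 ≤ 1 / 10 ^ 11 := by
    rw [le_div_iff₀ (by norm_num)]
    linarith
  have hrℓ1 : r * ℓ ≤ 1 / 10 ^ 11 := by
    refine le_trans ?_ hrℓ
    have : ℓ ≤ ℓ ^ 2 := by nlinarith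
    gcongr
  have hr1' : r ≤ 1 / 10 ^ 11 := by
    refine le_trans ?_ hrℓ1
    nlinarith
  have hr1 : r ≤ 1 / 10 := by linarith
  obtain ⟨hA, hB, hC⟩ := disc ht10 hr hr1 hline hsep
  have hC' := hC hnear
  rw [← hℓ] at hB hC'
  obtain ⟨s0, hs0⟩ : ∃ s0 : ℂ, s0 = 1 / 2 + I * t := ⟨_, rfl⟩
  rw [← hs0] at hA hB hC' hcr hlam1 ⊢
  obtain ⟨M, hM⟩ : ∃ M : ℝ, M = 10 ^ 7 * ℓ / r := ⟨_, rfl⟩
  have hM0 : 0 < M := by rw [hM]; positivity
  rw [← hM] at hB
  have hr2 : 0 < r / 2 := by positivity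
  have hsub : ball s0 (r / 2) ⊆ ball s0 r := ball_subset_ball (by linarith)
  have hGd : DifferentiableOn ℂ G (ball s0 (r / 2)) := fun z hz =>
    (hA z (hsub hz)).2.differentiableWithinAt
  have hs0b : s0 ∈ ball s0 (r / 2) := mem_ball_self hr2
  have hmaps : MapsTo G (ball s0 (r / 2)) (closedBall (G s0) (2 * M)) := by
    intro z hz
    rw [mem_closedBall, dist_eq_norm]
    refine (norm_sub_le _ _).trans ?_
    linarith [hB z hz, hB s0 hs0b]
  have hDd : DifferentiableOn ℂ (dslope G s0) (ball s0 (r / 2)) :=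
    (Complex.differentiableOn_dslope (isOpen_ball.mem_nhds hs0b)).2 hGd
  have hDb : ∀ z ∈ ball s0 (r / 2), ‖dslope G s0 z‖ ≤ 2 * M / (r / 2) := fun z hz =>
    Complex.norm_dslope_le_div_of_mapsTo_ball hGd hmaps hz
  have hmapsD : MapsTo (dslope G s0) (ball s0 (r / 2))
      (closedBall (dslope G s0 s0) (2 * (2 * M / (r / 2)))) := by
    intro z hz
    rw [mem_closedBall, dist_eq_norm]
    refine (norm_sub_le _ _).trans ?_
    linarith [hDb z hz, hDb s0 hs0b]
  obtain ⟨ρ, hρ⟩ : ∃ ρ : ℝ, ρ = 16 * r ^ 2 * ℓ := ⟨_, rfl⟩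
  have hρ0 : 0 < ρ := by rw [hρ]; positivity
  have hρr : ρ < r / 2 := by
    rw [hρ]
    have e : 16 * r ^ 2 * ℓ = (16 * (r * ℓ)) * r := by ring
    rw [e]
    nlinarith
  rw [← hρ]
  have hD0 : 1 / (2 * r ^ 2) ≤ ‖dslope G s0 s0‖ := by
    rw [dslope_same]
    refine le_trans ?_ hC'
    have e : 1 / r ^ 2 - 2 * 10 ^ 7 * ℓ / r = (1 - 2 * 10 ^ 7 * (r * ℓ)) / r ^ 2 := by
      field_simp
    rw [e, div_le_div_iff₀ (by positivity) (by positivity)]
    nlinarith [sq_nonneg r, mul_pos hr hr]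
  have hsph : ∀ z ∈ sphere s0 ρ, 4 * ℓ ≤ ‖G z - G s0‖ := by
    intro z hz
    rw [mem_sphere, dist_eq_norm] at hz
    have hzb : z ∈ ball s0 (r / 2) := by
      rw [mem_ball, dist_eq_norm, hz]; exact hρr
    have h1 := Complex.dist_le_div_mul_dist_of_mapsTo_ball hDd hmapsD hzb
    rw [dist_eq_norm, dist_eq_norm, hz] at h1
    have h2 : 2 * (2 * M / (r / 2)) / (r / 2) * ρ ≤ 1 / (4 * r ^ 2) := by
      have e : 2 * (2 * M / (r / 2)) / (r / 2) * ρ = 256 * 10 ^ 7 * (r * ℓ ^ 2) / r ^ 2 := by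
        rw [hM, hρ]
        field_simp
        ring
      rw [e, div_le_div_iff₀ (by positivity) (by positivity)]
      nlinarith [sq_nonneg r, mul_pos hr hr]
    have h3 : ‖dslope G s0 s0‖ ≤ ‖dslope G s0 z‖ + ‖dslope G s0 z - dslope G s0 s0‖ := by
      calc ‖dslope G s0 s0‖ = ‖dslope G s0 z - (dslope G s0 z - dslope G s0 s0)‖ := by
            congr 1; ring
        _ ≤ _ := norm_sub_le _ _
    have h4 : 1 / (4 * r ^ 2) ≤ ‖dslope G s0 z‖ := by
      have e : 1 / (2 * r ^ 2) = 1 / (4 * r ^ 2) + 1 / (4 * r ^ 2) := by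
        field_simp; norm_num
      linarith
    have h5 := sub_smul_dslope G s0 z
    rw [← h5, norm_smul, hz]
    have h6 : ρ * (1 / (4 * r ^ 2)) = 4 * ℓ := by
      rw [hρ]; field_simp; norm_num
    rw [← h6]
    gcongr
  have hne : deriv G s0 ≠ 0 := by
    intro h
    rw [dslope_same, h, norm_zero] at hD0
    have : 0 < 1 / (2 * r ^ 2) := by positivity
    linarith
  have hfreq : ∃ᶠ z in 𝓝 s0, G z ≠ G s0 := by
    have h1 := ((hA s0 (mem_ball_self hr)).2.hasDerivAt).eventually_ne (c := G s0) hne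
    exact (h1.frequently).filter_mono nhdsWithin_le_nhds
  have hdc : DiffContOnCl ℂ G (ball s0 ρ) := by
    refine DifferentiableOn.diffContOnCl_ball (U := ball s0 (r / 2)) hGd ?_
    exact closedBall_subset_ball hρr
  have himg := hdc.ball_subset_image_closedBall hρ0 hsph hfreq
  have hs0re : 0 < s0.re := by rw [hs0]; simp
  have hs01 : s0 ≠ 1 := by
    intro h
    have := congrArg Complex.im h
    rw [hs0] at this
    simp at this
    linarith
  have hG0 : ‖G s0‖ ≤ ℓ := by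
    rw [G_eq hs0re hs01 (hA s0 (mem_ball_self hr)).1, logDeriv_apply, hcr, zero_div, zero_sub,
      norm_neg]
    exact hlam1
  have h0m : (0 : ℂ) ∈ ball (G s0) (4 * ℓ / 2) := by
    rw [mem_ball, dist_eq_norm, zero_sub, norm_neg]
    linarith
  obtain ⟨z, hz, hz0⟩ := himg h0m
  rw [mem_closedBall, dist_eq_norm] at hz
  have hzb : z ∈ ball s0 r := by
    rw [mem_ball, dist_eq_norm]
    linarith
  refine ⟨z, ?_, hz⟩
  exact (div_eq_zero_iff.1 hz0).resolve_right (hA z hzb).1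

end Pool.Agent.Q85.Gap
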