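import Pool.Agent.Q85.Gap.Ord

/-! # Local data near the critical line -/

set_option autoImplicit false

open Filter Topology Set Metric Complex

namespace Pool.Agent.Q85.Gap

open Pool.Agent.H437R2 (landau)

/-- local data for an entire function -/
theorem gen (f : ℂ → ℂ) (hfd : Differentiable ℂ f) (c : ℂ) {M K0 : ℝ} (hfc : f c ≠ 0)
    (hM : ∀ z ∈ closedBall c (37 / 20), ‖f z‖ ≤ M) (hlog : Real.log (M / ‖f c‖) ≤ K0)
    (hK1 : 1 ≤ K0) :
    ∃ L : List ℂ, (∀ w ∈ L, f w = 0 ∧ ‖w - c‖ ≤ 17 / 10) ∧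
      (∀ w : ℂ, f w = 0 → ‖w - c‖ ≤ 17 / 10 → w ∈ L) ∧
      (L.length : ℝ) ≤ 13 * K0 ∧
      ∀ z : ℂ, ‖z - c‖ ≤ 8 / 5 → f z ≠ 0 →
        ‖deriv f z / f z - (L.map (fun w => (z - w)⁻¹)).sum‖ ≤ 10 ^ 6 * K0 := by
  obtain ⟨L, h1, h2, h3, h4⟩ := landau f hfd c (r := 8 / 5) (R1 := 17 / 10) (R2 := 37 / 20)
    (by norm_num) (by norm_num) (by norm_num) hfc hM
  have hl1 : 1 / 13 ≤ Real.log (37 / 20 / (17 / 10)) := by
    have : (37 / 20 / (17 / 10) : ℝ) = 37 / 34 := by norm_num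
    rw [this]
    have h5 := Real.one_sub_inv_le_log_of_pos (show (0 : ℝ) < 37 / 34 by norm_num)
    norm_num at h5
    linarith
  have hlen : (L.length : ℝ) ≤ 13 * K0 := by
    have h5 := h3.trans hlog
    have h6 : (0 : ℝ) ≤ L.length := Nat.cast_nonneg _
    nlinarith
  refine ⟨L, fun w hw => ⟨(h1 w hw).1, ?_⟩, fun w hw1 hw2 => ?_, hlen, ?_⟩
  · have := (h1 w hw).2
    rwa [mem_closedBall, dist_eq_norm] at this
  · exact h2 w (by rw [mem_closedBall, dist_eq_norm]; exact hw2) hw1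
  · intro z hz hfz
    have hl2 : |Real.log (17 / 10 / (37 / 20 - 17 / 10))| ≤ 4 := by
      have e : (17 / 10 / (37 / 20 - 17 / 10) : ℝ) = 34 / 3 := by norm_num
      rw [e, abs_of_nonneg (Real.log_nonneg (by norm_num))]
      have h5 : Real.log (34 / 3) ≤ Real.log (Real.exp 1 ^ 4) := by
        apply Real.log_le_log (by norm_num)
        have h6 : (2 : ℝ) ^ 4 ≤ Real.exp 1 ^ 4 := by
          gcongr
          have := Real.add_one_le_exp (1 : ℝ)
          linarith
        linarith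
      rw [Real.log_pow, Real.log_exp] at h5
      push_cast at h5
      linarith
    refine (h4 z (by rw [mem_closedBall, dist_eq_norm]; exact hz) hfz).trans ?_
    have h5 : Real.log (M / ‖f c‖) + L.length * |Real.log (17 / 10 / (37 / 20 - 17 / 10))| + 1 ≤
        60 * K0 := by
      have h6 : (L.length : ℝ) * |Real.log (17 / 10 / (37 / 20 - 17 / 10))| ≤ 13 * K0 * 4 :=
        mul_le_mul hlen hl2 (abs_nonneg _) (by positivity)
      linarith
    calc 8 * (17 / 10) / (17 / 10 - 8 / 5) ^ 2 * (Real.log (M / ‖f c‖) +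
          L.length * |Real.log (17 / 10 / (37 / 20 - 17 / 10))| + 1)
        ≤ 8 * (17 / 10) / (17 / 10 - 8 / 5) ^ 2 * (60 * K0) := by gcongr
      _ ≤ 10 ^ 6 * K0 := by norm_num; linarith

/-- the data for zeta -/
theorem zeta_M {t : ℝ} (ht : 10 ≤ t) : riemannZeta₁ (2 + t * I) ≠ 0 ∧
    (∀ z ∈ closedBall (2 + t * I : ℂ) (37 / 20), ‖riemannZeta₁ z‖ ≤ 11 * (t + 6) ^ 2) ∧
    Real.log (5 * (11 * (t + 6) ^ 2) / ‖riemannZeta₁ (2 + t * I)‖) ≤ 5 * Real.log t ∧
    2 < Real.log t := by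
  obtain ⟨c, hc⟩ : ∃ c : ℂ, c = 2 + t * I := ⟨_, rfl⟩
  have hlt : 2 < Real.log t := by
    rw [Real.lt_log_iff_exp_lt (by linarith)]
    have : Real.exp 2 = Real.exp 1 ^ 2 := by rw [← Real.exp_nat_mul]; norm_num
    rw [this]
    have h2 := Real.exp_one_lt_d9
    have h3 := Real.exp_pos 1
    nlinarith
  have hFlow := Pool.Agent.H437R2.z1_lower t
  rw [← hc] at hFlow ⊢
  have hFc : riemannZeta₁ c ≠ 0 := by
    intro h
    rw [h, norm_zero] at hFlow
    norm_num at hFlow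
  refine ⟨hFc, ?_, ?_, hlt⟩
  · intro z hz
    rw [mem_closedBall, dist_eq_norm] at hz
    have hre : |z.re - 2| ≤ 37 / 20 := by
      have := (Complex.abs_re_le_norm (z - c)).trans hz
      simpa [hc] using this
    refine (SG.z1_growth (by linarith [(abs_le.1 hre).1])).trans ?_
    have hcn : ‖c‖ ≤ 2 + t := by
      rw [hc]
      refine (norm_add_le _ _).trans ?_
      rw [norm_mul, Complex.norm_I, mul_one, Complex.norm_real, Real.norm_eq_abs,
        abs_of_nonneg (by linarith)]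
      simp
    have h3 : ‖z‖ ≤ 37 / 20 + (2 + t) := by
      have := norm_add_le (z - c) c
      rw [sub_add_cancel] at this
      linarith
    have h4 : ‖z‖ + 1 ≤ t + 6 := by linarith
    gcongr
  · have h5 : 5 * (11 * (t + 6) ^ 2) / ‖riemannZeta₁ c‖ ≤ t ^ 5 := by
      rw [div_le_iff₀ (norm_pos_iff.2 hFc)]
      have e1 : (t + 6) ^ 2 ≤ 4 * t ^ 2 := by nlinarith
      have e2 : (1000 : ℝ) ≤ t ^ 3 := by
        have : (10 : ℝ) ^ 3 ≤ t ^ 3 := by gcongr
        linarith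
      calc 5 * (11 * (t + 6) ^ 2) ≤ 220 * t ^ 2 := by linarith
        _ ≤ t ^ 3 * t ^ 2 * (1 / 4) := by
            have : 0 ≤ t ^ 2 := by positivity
            nlinarith
        _ = t ^ 5 * (1 / 4) := by ring
        _ ≤ t ^ 5 * ‖riemannZeta₁ c‖ := by gcongr
    have h6 := Real.log_le_log (by
      have := norm_pos_iff.2 hFc
      positivity) h5
    rw [Real.log_pow] at h6
    exact_mod_cast h6

/-- `ζ' / ζ` -/
noncomputable def G (z : ℂ) : ℂ := deriv riemannZeta z / riemannZeta z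

lemma z1_ld {z : ℂ} (hz : z ≠ 1) (h0 : riemannZeta z ≠ 0) :
    deriv riemannZeta₁ z / riemannZeta₁ z = 1 / (z - 1) + G z := by
  have e0 : riemannZeta₁ =ᶠ[𝓝 z] fun w => (w - 1) * riemannZeta w := by
    filter_upwards [isOpen_compl_singleton.mem_nhds hz] with w hw using z1_mul hw
  have h2 : HasDerivAt (fun w => (w - 1) * riemannZeta w)
      (1 * riemannZeta z + (z - 1) * deriv riemannZeta z) z :=
    ((hasDerivAt_id z).sub_const 1).mul (zeta_da hz).differentiableAt.hasDerivAt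
  have hz' : z - 1 ≠ 0 := sub_ne_zero.2 hz
  rw [e0.deriv_eq, h2.deriv, z1_mul hz]
  unfold G
  field_simp

/-- zeros of `ζ₁` -/
lemma z1_zero {w : ℂ} (hw : riemannZeta₁ w = 0) : w ≠ 1 ∧ riemannZeta w = 0 := by
  have hw1 : w ≠ 1 := by
    rintro rfl
    rw [riemannZeta₁_one] at hw
    exact one_ne_zero hw
  rw [z1_mul hw1] at hw
  exact ⟨hw1, (mul_eq_zero.1 hw).resolve_left (sub_ne_zero.2 hw1)⟩

lemma re_lt_one {w : ℂ} (hw : riemannZeta w = 0) : w.re < 1 := by
  by_contra h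
  exact riemannZeta_ne_zero_of_one_le_re (not_lt.1 h) hw

/-- the local data of `ζ' / ζ` -/
theorem zloc {t : ℝ} (ht : 10 ≤ t) : ∃ L : List ℂ,
    (∀ w ∈ L, riemannZeta w = 0 ∧ 0 < w.re ∧ w.re < 1 ∧ t - 2 ≤ w.im ∧ |w.im - t| ≤ 17 / 10) ∧
    (∀ w : ℂ, riemannZeta w = 0 → w ≠ 1 → ‖w - (2 + t * I)‖ ≤ 17 / 10 → w ∈ L) ∧
    (L.length : ℝ) ≤ 65 * Real.log t ∧
    ∀ z : ℂ, ‖z - (2 + t * I)‖ ≤ 8 / 5 → riemannZeta z ≠ 0 →
      ‖G z - (L.map (fun w => (z - w)⁻¹)).sum‖ ≤ 10 ^ 7 * Real.log t := by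
  obtain ⟨g1, g2, g3, g4⟩ := zeta_M ht
  obtain ⟨c, hc⟩ : ∃ c : ℂ, c = 2 + t * I := ⟨_, rfl⟩
  rw [← hc] at g1 g2 g3 ⊢
  have hM0 : 0 < ‖riemannZeta₁ c‖ := norm_pos_iff.2 g1
  obtain ⟨L, h1, h2, h3, h4⟩ := gen riemannZeta₁ differentiable_riemannZeta₁ c
    (M := 11 * (t + 6) ^ 2) (K0 := 5 * Real.log t) g1 g2 (by
      refine le_trans (Real.log_le_log (by positivity) ?_) g3
      rw [div_le_div_iff_of_pos_right hM0]
      nlinarith [sq_nonneg (t + 6)]) (by linarith)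
  refine ⟨L, fun w hw => ?_, fun w hw hw1 hwc => ?_, by linarith, fun z hz hz0 => ?_⟩
  · obtain ⟨a1, a2⟩ := h1 w hw
    obtain ⟨b1, b2⟩ := z1_zero a1
    have hre : |w.re - 2| ≤ 17 / 10 := by
      have := (Complex.abs_re_le_norm (w - c)).trans a2
      simpa [hc] using this
    have him : |w.im - t| ≤ 17 / 10 := by
      have := (Complex.abs_im_le_norm (w - c)).trans a2
      simpa [hc] using this
    exact ⟨b2, by linarith [(abs_le.1 hre).1], re_lt_one b2, by linarith [(abs_le.1 him).1], him⟩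
  · exact h2 w (by rw [z1_mul hw1, hw, mul_zero]) hwc
  · have him : |z.im - t| ≤ 8 / 5 := by
      have := (Complex.abs_im_le_norm (z - c)).trans hz
      simpa [hc] using this
    have hz1 : z ≠ 1 := by
      rintro rfl
      rw [Complex.one_im] at him
      linarith [(abs_le.1 him).1]
    have h5 := h4 z hz (by rw [z1_mul hz1]; exact mul_ne_zero (sub_ne_zero.2 hz1) hz0)
    rw [z1_ld hz1 hz0] at h5
    have h6 : ‖1 / (z - 1)‖ ≤ 1 := by
      rw [norm_div, norm_one]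
      have h7 := Complex.abs_im_le_norm (z - 1)
      rw [Complex.sub_im, Complex.one_im, sub_zero] at h7
      have h8 := le_abs_self z.im
      have h9 := (abs_le.1 him).1
      rw [div_le_one (by linarith)]
      linarith
    have e : G z - (L.map (fun w => (z - w)⁻¹)).sum =
        (1 / (z - 1) + G z - (L.map (fun w => (z - w)⁻¹)).sum) - 1 / (z - 1) := by ring
    rw [e]
    refine (norm_sub_le _ _).trans ?_
    linarith

/-- a sum of reciprocals is small away from the points -/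
lemma sum_inv_le (L : List ℂ) (z : ℂ) {r : ℝ} (hr : 0 < r) (h : ∀ w ∈ L, r ≤ ‖z - w‖) :
    ‖(L.map (fun w => (z - w)⁻¹)).sum‖ ≤ L.length / r := by
  induction L with
  | nil => simp
  | cons a L ih =>
    simp only [List.map_cons, List.sum_cons, List.length_cons]
    refine (norm_add_le _ _).trans ?_
    have h1 := ih fun w hw => h w (List.mem_cons_of_mem _ hw)
    have h2 : ‖(z - a)⁻¹‖ ≤ 1 / r := by
      rw [norm_inv, inv_eq_one_div]
      exact one_div_le_one_div_of_le hr (h a List.mem_cons_self)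
    push_cast
    rw [add_div]
    linarith

end Pool.Agent.Q85.Gap
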