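import Pool.Agent.Q85.Gap.Bwd
import Pool.Agent.Q85.Gap.Fin

/-! # The exponent of the smallest gaps and the zeros of the derivative -/

set_option autoImplicit false

open Filter Topology Set Complex

namespace Pool.Agent.Q85.Gap

open SG (ord NZ zmult ord_le_iff ord_mono le_NZ_ord ord_pos ord_tendsto)

/-- `log |β' - 1/2| / (2 log γ')`, with `log 0 = -∞` -/
noncomputable def zratio (s : ℂ) : EReal :=
  if s.re = 1 / 2 then ⊥ else ((Real.log |s.re - 1 / 2| / (2 * Real.log s.im) : ℝ) : EReal)

/-- `γ' → ∞` along the zeros of `ζ'` in the critical strip -/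
def PZ : Filter ℂ :=
  comap Complex.im atTop ⊓ 𝓟 {s : ℂ | deriv riemannZeta s = 0 ∧ 0 < s.re ∧ s.re < 1}

/-- the exponent of the smallest distances of zeros of `ζ'` from the critical line, halved -/
noncomputable def kappa : EReal := liminf zratio PZ

lemma freq_PZ {p : ℂ → Prop} (h : ∀ T : ℝ, ∃ s : ℂ, T ≤ s.im ∧ deriv riemannZeta s = 0 ∧
    0 < s.re ∧ s.re < 1 ∧ p s) : ∃ᶠ s in PZ, p s := by
  unfold PZ
  rw [frequently_inf_principal, frequently_comap, frequently_atTop]
  intro T
  obtain ⟨s, h1, h2, h3, h4, h5⟩ := h T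
  exact ⟨s.im, h1, s, rfl, ⟨h2, h3, h4⟩, h5⟩

lemma of_freq_PZ {p : ℂ → Prop} (h : ∃ᶠ s in PZ, p s) : ∀ T : ℝ, ∃ s : ℂ, T ≤ s.im ∧
    deriv riemannZeta s = 0 ∧ 0 < s.re ∧ s.re < 1 ∧ p s := by
  unfold PZ at h
  rw [frequently_inf_principal, frequently_comap, frequently_atTop] at h
  intro T
  obtain ⟨b, h1, s, h2, ⟨h3, h4, h5⟩, h6⟩ := h T
  exact ⟨s, by rw [h2]; exact h1, h3, h4, h5, h6⟩

/-- iterated logarithms are small -/
lemma llog {ε : ℝ} (hε : 0 < ε) (A : ℝ) : ∀ᶠ a : ℝ in atTop,
    2 * Real.log (Real.log a) + A ≤ ε * Real.log a := by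
  have h1 := Real.isLittleO_log_id_atTop.bound (show 0 < ε / 4 by positivity)
  have h2 : ∀ᶠ x : ℝ in atTop, 2 * Real.log x + A ≤ ε * x := by
    filter_upwards [h1, eventually_ge_atTop (2 * |A| / ε + 1)] with x h3 h4
    have hx : 0 < x := by
      have : 0 ≤ 2 * |A| / ε := by positivity
      linarith
    rw [Real.norm_eq_abs, id, Real.norm_eq_abs, abs_of_pos hx] at h3
    have h5 := le_abs_self (Real.log x)
    have h6 := le_abs_self A
    have h7 : 2 * |A| / ε ≤ x := by linarith
    rw [div_le_iff₀ hε] at h7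
    linarith
  exact Real.tendsto_log_atTop.eventually h2

lemma alpha_le_zero : alpha ≤ 0 := by
  unfold alpha
  have h := gap_lt_one.and_eventually (eventually_ge_atTop 10)
  refine liminf_le_of_frequently_le (h.mono fun n hn => ?_) (by isBoundedDefault)
  obtain ⟨h1, h2⟩ := hn
  unfold gapRatio
  split_ifs with h3
  · exact bot_le
  · have h4 : ord n ≤ ord (n + 1) := ord_mono (by omega) (Nat.le_succ n)
    have h5 : 0 < ord (n + 1) - ord n := by
      have : ord n ≠ ord (n + 1) := fun h => h3 h.symm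
      have := lt_of_le_of_ne h4 this
      linarith
    have h6 : Real.log (ord (n + 1) - ord n) < 0 := Real.log_neg h5 h1
    have h7 : (10 : ℝ) ≤ n := by exact_mod_cast h2
    have h8 : 0 < Real.log n := Real.log_pos (by linarith)
    have h9 : Real.log (ord (n + 1) - ord n) / Real.log n ≤ 0 := (div_neg_of_neg_of_pos h6 h8).le
    exact_mod_cast h9

theorem K1 {T1 : ℝ} (hT1 : 1 ≤ T1) (hg : ∀ s : ℂ, riemannZeta s = 0 →
    0 < s.re → s.re < 1 → T1 ≤ s.im → s.re = 1 / 2 ∧ deriv riemannZeta s ≠ 0) {c : ℝ} (hc : c < 0)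
    (h : alpha < c) : kappa ≤ c := by
  obtain ⟨c', h1, h2⟩ := EReal.lt_iff_exists_real_btwn.1 h
  have hcc : c' < c := by exact_mod_cast h2
  have hfr : ∃ᶠ n in atTop, gapRatio n < (c' : EReal) := frequently_lt_of_liminf_lt (by isBoundedDefault) h1
  obtain ⟨t0, ht0, hfwd⟩ := fwd
  unfold kappa
  refine liminf_le_of_frequently_le (freq_PZ fun T => ?_) (by isBoundedDefault)
  -- the eventual conditions
  have e1 := llog (ε := -c') (by linarith) (Real.log (4 * 10 ^ 11))
  have e2 := llog (ε := 2 * (c - c')) (by linarith) (Real.log 32 - 2 * c)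
  have e3 := ord_tendsto.eventually ((e1.and e2).and
    (eventually_ge_atTop (max (max T t0) T1 + 20)))
  obtain ⟨n, hn, ⟨⟨⟨n1, n2⟩, n3⟩, n4⟩, n5⟩ := (hfr.and_eventually ((e3.and ord_le_self).and
    (eventually_ge_atTop 10))).exists
  obtain ⟨a, ha⟩ : ∃ a : ℝ, a = ord n := ⟨_, rfl⟩
  obtain ⟨b, hb⟩ : ∃ b : ℝ, b = ord (n + 1) := ⟨_, rfl⟩
  rw [← ha] at n1 n2 n3 n4
  have m1 : T ≤ max (max T t0) T1 := (le_max_left _ _).trans (le_max_left _ _)
  have m2 : t0 ≤ max (max T t0) T1 := (le_max_right _ _).trans (le_max_left _ _)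
  have m3 : T1 ≤ max (max T t0) T1 := le_max_right _ _
  have ha20 : 20 ≤ a := by linarith
  have hab : a < b := by
    rw [ha, hb]
    exact gap_pos hT1 hg (by omega) (by rw [← ha]; linarith)
  unfold gapRatio at hn
  rw [← ha, ← hb, if_neg hab.ne'] at hn
  have hn' : Real.log (b - a) / Real.log n < c' := by exact_mod_cast hn
  have hnr : (10 : ℝ) ≤ n := by exact_mod_cast n5
  have hLn : 0 < Real.log n := Real.log_pos (by linarith)
  rw [div_lt_iff₀ hLn] at hn'
  have hla : 0 < Real.log a := Real.log_pos (by linarith)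
  have hlan : Real.log a ≤ Real.log n := Real.log_le_log (by linarith) n4
  have hlg : Real.log (b - a) ≤ c' * Real.log a := by nlinarith
  have hba : b - a < 1 := by
    have h5 : Real.log (b - a) < 0 := by nlinarith
    by_contra hcon
    push Not at hcon
    linarith [Real.log_nonneg hcon]
  -- points on the line
  have hpt : ∀ k : ℕ, 1 ≤ k → T1 ≤ ord k → riemannZeta (1 / 2 + I * ord k) = 0 := by
    intro k hk hT
    obtain ⟨s, h1, h2, h3, h4⟩ := exists_zero_at hk
    obtain ⟨g1, g2⟩ := hg s h1 h2 h3 (by rw [h4]; exact hT)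
    have e : s = 1 / 2 + I * ord k := by
      apply Complex.ext
      · simp [g1]
      · simp [h4]
    rw [← e]
    exact h1
  have hza := hpt n (by omega) (by rw [← ha]; linarith)
  have hzb := hpt (n + 1) (by omega) (by rw [← hb]; linarith)
  rw [← ha] at hza
  rw [← hb] at hzb
  obtain ⟨x, hx1, hx2, hx3⟩ := crit hab (by linarith) hza hzb
  obtain ⟨r, hr⟩ : ∃ r : ℝ, r = min (x - a) (b - x) := ⟨_, rfl⟩
  have hr0 : 0 < r := by rw [hr]; exact lt_min (by linarith) (by linarith)
  have hrab : r ≤ b - a := by rw [hr]; exact (min_le_left _ _).trans (by linarith)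
  have hlr : Real.log r ≤ c' * Real.log a := (Real.log_le_log hr0 hrab).trans hlg
  have hlx : Real.log x ≤ 2 * Real.log a := by
    have h5 : x ≤ a ^ 2 := by nlinarith
    have h6 := Real.log_le_log (by linarith) h5
    rw [Real.log_pow] at h6
    exact_mod_cast h6
  have hlx0 : 1 ≤ Real.log x := by
    have := (zeta_M (by linarith : (10 : ℝ) ≤ x)).2.2.2
    linarith
  have hla1 : 1 ≤ Real.log a := by
    have := (zeta_M (by linarith : (10 : ℝ) ≤ a)).2.2.2
    linarith
  have hcond : r * (10 ^ 11 * Real.log x ^ 2) ≤ 1 := by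
    have h5 : r * (10 ^ 11 * Real.log x ^ 2) ≤ r * (10 ^ 11 * (2 * Real.log a) ^ 2) := by gcongr
    refine h5.trans ?_
    rw [← Real.log_nonpos_iff (by positivity), Real.log_mul hr0.ne' (by positivity)]
    have h6 : Real.log (10 ^ 11 * (2 * Real.log a) ^ 2) =
        2 * Real.log (Real.log a) + Real.log (4 * 10 ^ 11) := by
      have e : 10 ^ 11 * (2 * Real.log a) ^ 2 = (Real.log a) ^ 2 * (4 * 10 ^ 11) := by ring
      rw [e, Real.log_mul (by positivity) (by norm_num), Real.log_pow]
      norm_num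
    rw [h6]
    linarith
  obtain ⟨z, hz1, hz2⟩ := hfwd x r (by linarith) hr0 hcond
    (fun w h1 h2 h3 h4 => (hg w h1 h2 h3 (by linarith)).1) (by
      intro w h1 h2 h3
      obtain ⟨k, hk1, hk2⟩ := exists_ord h1 (by rw [h2]; norm_num) (by rw [h2]; norm_num)
        (by linarith)
      rcases le_or_gt k n with h5 | h5
      · have h6 : w.im ≤ a := by rw [← hk2, ha]; exact ord_mono hk1 h5
        have h7 := neg_abs_le (w.im - x)
        have h8 : r ≤ x - a := by rw [hr]; exact min_le_left _ _
        linarith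
      · have h6 : b ≤ w.im := by rw [← hk2, hb]; exact ord_mono (by omega) h5
        have h7 := le_abs_self (w.im - x)
        have h8 : r ≤ b - x := by rw [hr]; exact min_le_right _ _
        linarith) (by
      rcases min_choice (x - a) (b - x) with h5 | h5
      · refine ⟨1 / 2 + I * a, hza, by simp, ?_⟩
        rw [hr, h5]
        simp only [add_im, mul_im, I_re, I_im, ofReal_re, ofReal_im]
        norm_num
        rw [abs_sub_comm, abs_of_pos (by linarith)]
      · refine ⟨1 / 2 + I * b, hzb, by simp, ?_⟩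
        rw [hr, h5]
        simp only [add_im, mul_im, I_re, I_im, ofReal_re, ofReal_im]
        norm_num
        linarith) hx3
  -- the zero of the derivative
  have hsmall : 16 * r ^ 2 * Real.log x ≤ 1 / 10 := by
    have h5 : r ≤ 1 := by linarith
    have h6 : r * Real.log x ≤ 1 / 10 ^ 11 := by
      rw [le_div_iff₀ (by norm_num)]
      nlinarith [mul_pos hr0 (by linarith : (0 : ℝ) < Real.log x)]
    nlinarith [mul_pos hr0 (by linarith : (0 : ℝ) < Real.log x)]
  have hzre := (Complex.abs_re_le_norm (z - (1 / 2 + I * x))).trans hz2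
  have hzim := (Complex.abs_im_le_norm (z - (1 / 2 + I * x))).trans (hz2.trans hsmall)
  have e5 : (z - (1 / 2 + I * x)).re = z.re - 1 / 2 := by simp
  have e6 : (z - (1 / 2 + I * x)).im = z.im - x := by simp
  rw [e5] at hzre
  rw [e6] at hzim
  have hzre' := abs_le.1 (hzre.trans hsmall)
  have hzim' := abs_le.1 hzim
  refine ⟨z, by linarith, hz1, by linarith, by linarith, ?_⟩
  unfold zratio
  split_ifs with h5
  · exact bot_le
  · have h6 : 0 < |z.re - 1 / 2| := abs_pos.2 (sub_ne_zero.2 h5)
    have hzi : 10 ≤ z.im := by linarith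
    have hlz : 0 < Real.log z.im := Real.log_pos (by linarith)
    have h7 : Real.log |z.re - 1 / 2| ≤ 2 * c' * Real.log a + Real.log (32 * Real.log a) := by
      have h8 := Real.log_le_log h6 hzre
      have e7 : 16 * r ^ 2 * Real.log x = r ^ 2 * (16 * Real.log x) := by ring
      rw [e7, Real.log_mul (by positivity) (by positivity), Real.log_pow] at h8
      have h9 : Real.log (16 * Real.log x) ≤ Real.log (32 * Real.log a) := by
        apply Real.log_le_log (by positivity)
        linarith
      push_cast at h8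
      linarith
    have h8 : Real.log (32 * Real.log a) = Real.log (Real.log a) + Real.log 32 := by
      rw [Real.log_mul (by norm_num) (by positivity)]; ring
    have h9 : Real.log z.im ≤ Real.log a + 1 := by
      have h10 : z.im ≤ a * Real.exp 1 := by
        have := Real.add_one_le_exp (1 : ℝ)
        nlinarith
      have h11 := Real.log_le_log (by linarith) h10
      rw [Real.log_mul (by linarith) (Real.exp_pos 1).ne', Real.log_exp] at h11
      exact h11
    have h10 : 0 ≤ Real.log (Real.log a) := Real.log_nonneg hla1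
    have h11 : Real.log |z.re - 1 / 2| / (2 * Real.log z.im) ≤ c := by
      rw [div_le_iff₀ (by positivity)]
      nlinarith
    exact_mod_cast h11

end Pool.Agent.Q85.Gap
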