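import Pool.Agent.Q85.Gap.Kap

/-! # The exponent of the smallest gaps and the zeros of the derivative: the formula -/

set_option autoImplicit false

open Filter Topology Set Complex

namespace Pool.Agent.Q85.Gap

open SG (ord NZ zmult ord_le_iff ord_mono le_NZ_ord ord_pos ord_tendsto)

/-- the index of an ordinate -/
lemma index_le {η : ℝ} (hη : 0 < η) : ∀ᶠ a : ℝ in atTop, ∀ m : ℕ, 1 ≤ m → ord m = a →
    Real.log m ≤ (1 + η) * Real.log a := by
  filter_upwards [Pool.Agent.Y749.AH.N_asymp (ε := 1) one_pos, llog (ε := 2 * η) (by linarith) 0,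
    eventually_ge_atTop 20] with a h1 h2 h3 m hm hma
  have h4 : m ≤ NZ a := by rw [← hma]; exact le_NZ_ord hm
  have h5 : (m : ℝ) ≤ NZ a := by exact_mod_cast h4
  have hla : 0 < Real.log a := Real.log_pos (by linarith)
  have h6 : (1 + 1) * Pool.Agent.Y749.Rig.nT a ≤ a * Real.log a := by
    unfold Pool.Agent.Y749.Rig.nT
    have hpi := Real.pi_gt_three
    have e : (1 + 1) * (a * Real.log a / (2 * Real.pi)) = a * Real.log a / Real.pi := by
      field_simp
      norm_num
    rw [e, div_le_iff₀ Real.pi_pos]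
    have : 0 < a * Real.log a := by positivity
    nlinarith
  have h7 : (m : ℝ) ≤ a * Real.log a := h5.trans (h1.2.trans h6)
  have hm0 : (0 : ℝ) < m := by exact_mod_cast hm
  have h8 := Real.log_le_log hm0 h7
  rw [Real.log_mul (by linarith) hla.ne'] at h8
  linarith

theorem K2 {T1 : ℝ} (hT1 : 1 ≤ T1) (hg : ∀ s : ℂ, riemannZeta s = 0 →
    0 < s.re → s.re < 1 → T1 ≤ s.im → s.re = 1 / 2 ∧ deriv riemannZeta s ≠ 0) {c : ℝ} (hc : c < 0)
    (h : kappa < c) : alpha ≤ c := by
  obtain ⟨c', h1, h2⟩ := EReal.lt_iff_exists_real_btwn.1 h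
  have hcc : c' < c := by exact_mod_cast h2
  have hc' : c' < 0 := by linarith
  have hfr : ∃ᶠ s in PZ, zratio s < (c' : EReal) :=
    frequently_lt_of_liminf_lt (by isBoundedDefault) h1
  have hfr' := of_freq_PZ hfr
  obtain ⟨t0, ht0, hbwd⟩ := bwd
  unfold alpha
  refine liminf_le_of_frequently_le (frequently_atTop.2 fun N => ?_) (by isBoundedDefault)
  obtain ⟨η, hη⟩ : ∃ η : ℝ, η = (c' / c - 1) / 2 := ⟨_, rfl⟩
  have hη0 : 0 < η := by
    have : 1 < c' / c := by rw [lt_div_iff_of_neg hc]; linarith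
    rw [hη]; linarith
  have hηc : (1 + η) * c = (c + c') / 2 := by
    rw [hη]
    have := hc.ne
    field_simp
    ring
  obtain ⟨A1, hA1⟩ := eventually_atTop.1 (llog (ε := -(2 * c')) (by linarith) (Real.log (10 ^ 30)))
  obtain ⟨A2, hA2⟩ := eventually_atTop.1 (llog (ε := (c - c') / 2) (by linarith)
    (Real.log (10 ^ 9) - (c + c') / 2))
  obtain ⟨A3, hA3⟩ := eventually_atTop.1 (index_le hη0)
  obtain ⟨s, s1, s2, s3, s4, s5⟩ := hfr' (max (max (max A1 A2) (max (A3 + 1) t0))
    (max (T1 + 20) (ord (N + 1) + 2)))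
  obtain ⟨t, ht⟩ : ∃ t : ℝ, t = s.im := ⟨_, rfl⟩
  have m1 : A1 ≤ t := ((le_max_left _ _).trans (le_max_left _ _)).trans
    ((le_max_left _ _).trans (ht ▸ s1))
  have m2 : A2 ≤ t := ((le_max_right _ _).trans (le_max_left _ _)).trans
    ((le_max_left _ _).trans (ht ▸ s1))
  have m3 : A3 + 1 ≤ t := ((le_max_left _ _).trans (le_max_right _ _)).trans
    ((le_max_left _ _).trans (ht ▸ s1))
  have m4 : t0 ≤ t := ((le_max_right _ _).trans (le_max_right _ _)).trans
    ((le_max_left _ _).trans (ht ▸ s1))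
  have m5 : T1 + 20 ≤ t := (le_max_left _ _).trans ((le_max_right _ _).trans (ht ▸ s1))
  have m6 : ord (N + 1) + 2 ≤ t := (le_max_right _ _).trans ((le_max_right _ _).trans (ht ▸ s1))
  have hlt := (zeta_M (by linarith : (10 : ℝ) ≤ t)).2.2.2
  obtain ⟨δ, hδ⟩ : ∃ δ : ℝ, δ = |s.re - 1 / 2| := ⟨_, rfl⟩
  have hδ0 : 0 ≤ δ := by rw [hδ]; exact abs_nonneg _
  have hlδ : 0 < δ → Real.log δ ≤ 2 * c' * Real.log t := by
    intro hpos
    unfold zratio at s5
    rw [if_neg (by
      intro he
      rw [hδ, he, sub_self, abs_zero] at hpos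
      exact lt_irrefl _ hpos)] at s5
    have h3 : Real.log |s.re - 1 / 2| / (2 * Real.log s.im) < c' := by exact_mod_cast s5
    rw [← hδ, ← ht, div_lt_iff₀ (by linarith)] at h3
    linarith
  have hcond : δ * (10 ^ 30 * Real.log t ^ 2) ≤ 1 := by
    rcases hδ0.lt_or_eq with hpos | h0
    · have h3 := hlδ hpos
      have h4 := hA1 t m1
      rw [← Real.log_nonpos_iff (by positivity), Real.log_mul hpos.ne' (by positivity),
        Real.log_mul (by norm_num) (by positivity), Real.log_pow (Real.log t) 2]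
      push_cast
      linarith
    · rw [← h0]; norm_num
  obtain ⟨a, b, b1, b2, b3, b4, b5, b6⟩ := hbwd s (by rw [← ht]; exact m4) s2
    (by rw [← hδ, ← ht]; exact hcond)
    (fun w h1 h2 h3 h4 => hg w h1 h2 h3 (by rw [← ht] at h4; linarith))
  rw [← ht] at b4 b5 b6
  rw [← hδ] at b6
  have hδpos : 0 < δ := by
    rcases hδ0.lt_or_eq with hpos | h0
    · exact hpos
    · rw [← h0, Real.sqrt_zero, mul_zero] at b6
      linarith
  have h3 := hlδ hδpos
  obtain ⟨m, hm1, hm2⟩ := exists_ord b2 (by simp) (by norm_num) (by simp; linarith)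
  obtain ⟨k, hk1, hk2⟩ := exists_ord b3 (by simp) (by norm_num) (by simp; linarith)
  have ea : ord m = a := by rw [hm2]; simp
  have eb : ord k = b := by rw [hk2]; simp
  have hmk : m < k := ord_index hk1 (by rw [ea, eb]; exact b1)
  have hgap : ord (m + 1) ≤ b := by rw [← eb]; exact ord_mono (by omega) hmk
  have hgp := gap_pos hT1 hg hm1 (by rw [ea]; linarith)
  have hNm : N + 1 < m := ord_index hm1 (by rw [ea]; linarith)
  refine ⟨m, by omega, ?_⟩
  unfold gapRatio
  rw [if_neg hgp.ne']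
  have hmr : (2 : ℝ) ≤ m := by
    have : 2 ≤ m := by omega
    exact_mod_cast this
  have hlm : 0 < Real.log m := Real.log_pos (by linarith)
  have h4 : Real.log (ord (m + 1) - ord m) ≤ Real.log (b - a) := by
    apply Real.log_le_log (by linarith)
    linarith
  obtain ⟨κ, hκ⟩ : ∃ κ : ℝ, κ = Real.log (10 ^ 9) := ⟨_, rfl⟩
  have h5 : Real.log (b - a) ≤ κ + Real.log (Real.log t) + c' * Real.log t := by
    have h6 := Real.log_le_log (by linarith) b6
    have hsq : 0 < Real.sqrt δ := Real.sqrt_pos.2 hδpos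
    rw [Real.log_mul (by positivity) hsq.ne', Real.log_mul (by norm_num) (by positivity),
      Real.log_sqrt hδ0, ← hκ] at h6
    linarith
  have h6 := hA3 a (by linarith) m hm1 ea
  have h7 := hA2 t m2
  rw [← hκ] at h7
  have h8 : Real.log a ≤ Real.log t + 1 := by
    have h10 : a ≤ t * Real.exp 1 := by
      have := Real.add_one_le_exp (1 : ℝ)
      nlinarith
    have h11 := Real.log_le_log (by linarith) h10
    rw [Real.log_mul (by linarith) (Real.exp_pos 1).ne', Real.log_exp] at h11
    exact h11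
  have h9 : 0 ≤ Real.log (Real.log t) := Real.log_nonneg (by linarith)
  have h10 : c * ((1 + η) * (Real.log t + 1)) ≤ c * Real.log m := by
    have : Real.log m ≤ (1 + η) * (Real.log t + 1) := h6.trans (by gcongr)
    nlinarith
  have h11 : c * ((1 + η) * (Real.log t + 1)) = (c + c') / 2 * (Real.log t + 1) := by
    rw [← hηc]; ring
  have h12 : Real.log (ord (m + 1) - ord m) / Real.log m ≤ c := by
    rw [div_le_iff₀ hlm]
    nlinarith
  exact_mod_cast h12

/-- **the formula** -/
theorem alpha_kappa (hfin : {s : ℂ | Bad s}.Finite) : alpha = min kappa 0 := by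
  obtain ⟨T1, hT1, hg⟩ := large_good hfin
  apply le_antisymm
  · refine le_min ?_ alpha_le_zero
    by_contra hcon
    push Not at hcon
    obtain ⟨x, hx1, hx2⟩ := EReal.lt_iff_exists_real_btwn.1 hcon
    have hx0 : x < 0 := by
      have := hx2.trans_le alpha_le_zero
      exact_mod_cast this
    have := K2 hT1 hg hx0 hx1
    exact absurd hx2 (not_lt.2 this)
  · by_contra hcon
    push Not at hcon
    obtain ⟨x, hx1, hx2⟩ := EReal.lt_iff_exists_real_btwn.1 hcon
    have hx0 : x < 0 := by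
      have := hx2.trans_le (min_le_right _ _)
      exact_mod_cast this
    have := K1 hT1 hg hx0 hx1
    exact absurd (hx2.trans_le (min_le_left _ _)) (not_lt.2 this)

end Pool.Agent.Q85.Gap
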