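import Pool.Agent.H437R2.A2
import Pool.Agent.H382R2.Zeta2

/-! # The second logarithmic derivative of the regularised zeta at a simple zero -/

set_option autoImplicit false

open Filter Topology Set Metric

namespace Pool.Agent.Q85.Gap

open Pool.Agent.H437R2 (landau)

/-- the derivative of a sum of simple poles -/
lemma sum_deriv (L : List ℂ) (z : ℂ) (h : ∀ w ∈ L, z ≠ w) :
    HasDerivAt (fun z : ℂ => (L.map (fun w => (z - w)⁻¹)).sum)
      (-(L.map (fun w => ((z - w) ^ 2)⁻¹)).sum) z := by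
  induction L with
  | nil => simpa using hasDerivAt_const z (0 : ℂ)
  | cons a L ih =>
    have h1 := ih fun w hw => h w (List.mem_cons_of_mem _ hw)
    have h2 : z - a ≠ 0 := sub_ne_zero.2 (h a List.mem_cons_self)
    have h3 : HasDerivAt (fun z : ℂ => (z - a)⁻¹) (-((z - a) ^ 2)⁻¹) z := by
      have := ((hasDerivAt_id z).sub_const a).inv h2
      rw [neg_div, one_div] at this
      exact this
    simp only [List.map_cons, List.sum_cons]
    rw [neg_add]
    exact h3.add h1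

/-- the general estimate: `F` entire, `ρ` a simple zero of `F`, no other zeros within `d` -/
theorem second (F : ℂ → ℂ) (hF : Differentiable ℂ F) (c ρ : ℂ) {M1 K0 d : ℝ} (hρ : F ρ = 0)
    (hρc : ‖ρ - c‖ = 3 / 2) (hρ' : deriv F ρ ≠ 0) (hFc : F c ≠ 0)
    (hM : ∀ z ∈ closedBall c (37 / 20), ‖F z‖ ≤ M1)
    (hK0 : Real.log (5 * M1 / ‖F c‖) ≤ K0) (hK1 : 1 ≤ K0) (hd : 0 < d) (hd1 : d ≤ 1 / 10)
    (hsep : ∀ w : ℂ, F w = 0 → w ≠ ρ → d ≤ ‖w - ρ‖) :
    ∃ L : List ℂ, (∀ w ∈ L, F w = 0 ∧ w ≠ ρ ∧ ‖w - c‖ ≤ 17 / 10) ∧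
      (∀ w : ℂ, F w = 0 → w ≠ ρ → ‖w - c‖ ≤ 17 / 10 → w ∈ L) ∧
      (L.length : ℝ) ≤ 100 * K0 ∧
      ‖((deriv (deriv F) ρ / (2 * deriv F ρ)) ^ 2 - deriv (deriv (deriv F)) ρ / (3 * deriv F ρ)) -
        (L.map (fun w => ((ρ - w) ^ 2)⁻¹)).sum‖ ≤ 10 ^ 7 * K0 / d := by
  -- the regularised function
  obtain ⟨f, hf⟩ : ∃ f : ℂ → ℂ, f = dslope F ρ := ⟨_, rfl⟩
  have hfd : Differentiable ℂ f := by
    rw [hf, ← differentiableOn_univ]
    exact (Complex.differentiableOn_dslope univ_mem).2 hF.differentiableOn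
  have hfF : ∀ z, F z = (z - ρ) * f z := by
    intro z
    have := sub_smul_dslope F ρ z
    rw [hρ, sub_zero, smul_eq_mul] at this
    rw [hf, this]
  have hfρ : f ρ = deriv F ρ := by rw [hf, dslope_same]
  have hf0 : f ρ ≠ 0 := by rw [hfρ]; exact hρ'
  have hfz : ∀ w, f w = 0 ↔ (F w = 0 ∧ w ≠ ρ) := by
    intro w
    constructor
    · intro h
      refine ⟨by rw [hfF, h, mul_zero], ?_⟩
      rintro rfl
      exact hf0 h
    · rintro ⟨h1, h2⟩
      rw [hfF] at h1
      exact (mul_eq_zero.1 h1).resolve_left (sub_ne_zero.2 h2)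
  -- the derivatives at the zero
  have hd1f : deriv F = fun z => f z + (z - ρ) * deriv f z := by
    funext z
    have h1 : F = fun z => (z - ρ) * f z := funext hfF
    have h2 : HasDerivAt (fun z => (z - ρ) * f z) (1 * f z + (z - ρ) * deriv f z) z :=
      ((hasDerivAt_id z).sub_const ρ).mul (hfd z).hasDerivAt
    rw [h1, h2.deriv, one_mul]
  have hfd1 : Differentiable ℂ (deriv f) := fun z => (hfd.analyticAt z).deriv.differentiableAt
  have hfd2 : Differentiable ℂ (deriv (deriv f)) := fun z =>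
    (hfd.analyticAt z).deriv.deriv.differentiableAt
  have hd2f : deriv (deriv F) = fun z => 2 * deriv f z + (z - ρ) * deriv (deriv f) z := by
    funext z
    rw [hd1f]
    have h2 : HasDerivAt (fun z => f z + (z - ρ) * deriv f z)
        (deriv f z + (1 * deriv f z + (z - ρ) * deriv (deriv f) z)) z :=
      (hfd z).hasDerivAt.add (((hasDerivAt_id z).sub_const ρ).mul (hfd1 z).hasDerivAt)
    rw [h2.deriv]; ring
  have hd3f : deriv (deriv (deriv F)) ρ = 3 * deriv (deriv f) ρ := by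
    rw [hd2f]
    have h2 : HasDerivAt (fun z => 2 * deriv f z + (z - ρ) * deriv (deriv f) z)
        (2 * deriv (deriv f) ρ + (1 * deriv (deriv f) ρ + (ρ - ρ) * deriv (deriv (deriv f)) ρ)) ρ :=
      ((hfd1 ρ).hasDerivAt.const_mul 2).add
        (((hasDerivAt_id ρ).sub_const ρ).mul (hfd2 ρ).hasDerivAt)
    rw [h2.deriv]; ring
  have hd2ρ : deriv (deriv F) ρ = 2 * deriv f ρ := by
    rw [hd2f]; simp
  have hB : (deriv (deriv F) ρ / (2 * deriv F ρ)) ^ 2 - deriv (deriv (deriv F)) ρ / (3 * deriv F ρ) =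
      (deriv f ρ / f ρ) ^ 2 - deriv (deriv f) ρ / f ρ := by
    rw [hd3f, hd2ρ, ← hfρ]
    field_simp
  -- bounds for `f`
  have hFc0 : 0 < ‖F c‖ := norm_pos_iff.2 hFc
  have hM1 : 0 < M1 := hFc0.trans_le (hM c (mem_closedBall_self (by norm_num)))
  have hM2 : ∀ z ∈ closedBall c (37 / 20), ‖f z‖ ≤ 3 * M1 := by
    intro z hz
    have hfar : ∀ w : ℂ, w ∈ closedBall c (37 / 20) → 7 / 20 ≤ ‖w - ρ‖ → ‖f w‖ ≤ 3 * M1 := by
      intro w hw hwρ
      have h1 := hM w hw
      rw [hfF, norm_mul] at h1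
      have h2 : 7 / 20 * ‖f w‖ ≤ M1 := le_trans (mul_le_mul_of_nonneg_right hwρ (norm_nonneg _)) h1
      linarith
    rcases le_or_gt (7 / 20) ‖z - ρ‖ with h | h
    · exact hfar z hz h
    · have h1 : ∀ w ∈ frontier (ball ρ (7 / 20)), ‖f w‖ ≤ 3 * M1 := by
        intro w hw
        rw [frontier_ball _ (by norm_num), mem_sphere, dist_eq_norm] at hw
        refine hfar w ?_ hw.ge
        rw [mem_closedBall, dist_eq_norm]
        calc ‖w - c‖ = ‖(w - ρ) + (ρ - c)‖ := by ring_nf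
          _ ≤ ‖w - ρ‖ + ‖ρ - c‖ := norm_add_le _ _
          _ ≤ 37 / 20 := by rw [hw, hρc]; norm_num
      refine Complex.norm_le_of_forall_mem_frontier_norm_le isBounded_ball
        hfd.diffContOnCl h1 ?_
      exact subset_closure (by rw [mem_ball, dist_eq_norm]; exact h)
  have hcρ : c ≠ ρ := by
    rintro rfl
    rw [sub_self, norm_zero] at hρc
    norm_num at hρc
  have hfc : f c ≠ 0 := by
    intro h
    exact hFc ((hfz c).1 h).1
  have hfcn : ‖F c‖ = 3 / 2 * ‖f c‖ := by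
    rw [hfF, norm_mul, norm_sub_rev, hρc]
  obtain ⟨L, h1, h2, h3, h4⟩ := landau f hfd c (r := 8 / 5) (R1 := 17 / 10) (R2 := 37 / 20)
    (by norm_num) (by norm_num) (by norm_num) hfc hM2
  have hfc0 : 0 < ‖f c‖ := norm_pos_iff.2 hfc
  have hlog : Real.log (3 * M1 / ‖f c‖) ≤ K0 := by
    refine le_trans (Real.log_le_log (by positivity) ?_) hK0
    rw [hfcn, div_le_div_iff₀ hfc0 (by positivity)]
    nlinarith
  have hl1 : 1 / 13 ≤ Real.log (37 / 20 / (17 / 10)) := by
    have : (37 / 20 / (17 / 10) : ℝ) = 37 / 34 := by norm_num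
    rw [this]
    have h5 := Real.one_sub_inv_le_log_of_pos (show (0 : ℝ) < 37 / 34 by norm_num)
    norm_num at h5
    linarith
  have hlen : (L.length : ℝ) ≤ 13 * K0 := by
    have h5 := h3.trans hlog
    have h6 : (0 : ℝ) ≤ L.length := Nat.cast_nonneg _
    nlinarith
  refine ⟨L, fun w hw => ?_, fun w hw1 hw2 hw3 => ?_, by linarith, ?_⟩
  · obtain ⟨h5, h6⟩ := h1 w hw
    rw [mem_closedBall, dist_eq_norm] at h6
    exact ⟨((hfz w).1 h5).1, ((hfz w).1 h5).2, h6⟩
  · exact h2 w (by rw [mem_closedBall, dist_eq_norm]; exact hw3) ((hfz w).2 ⟨hw1, hw2⟩)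
  · -- the Cauchy estimate
    have hl2 : |Real.log (17 / 10 / (37 / 20 - 17 / 10))| ≤ 4 := by
      have e : (17 / 10 / (37 / 20 - 17 / 10) : ℝ) = 34 / 3 := by norm_num
      rw [e, abs_of_nonneg (Real.log_nonneg (by norm_num))]
      have h5 : Real.log (34 / 3) ≤ Real.log (Real.exp 1 ^ 4) := by
        apply Real.log_le_log (by norm_num)
        have h6 : (2 : ℝ) ^ 4 ≤ Real.exp 1 ^ 4 := by
          gcongr
          have := Real.add_one_le_exp (1 : ℝ)
          linarith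
        linarith
      rw [Real.log_pow, Real.log_exp] at h5
      push_cast at h5
      linarith
    obtain ⟨Q, hQ⟩ : ∃ Q : ℝ, Q = 10 ^ 6 * K0 := ⟨_, rfl⟩
    obtain ⟨g, hg⟩ : ∃ g : ℂ → ℂ, ∀ z, g z = deriv f z / f z - (L.map (fun w => (z - w)⁻¹)).sum :=
      ⟨_, fun z => rfl⟩
    have hnz : ∀ z ∈ ball ρ d, f z ≠ 0 := by
      intro z hz h
      rw [mem_ball, dist_eq_norm] at hz
      have h5 := (hfz z).1 h
      have := hsep z h5.1 h5.2
      linarith
    have hgb : ∀ z ∈ ball ρ d, ‖g z‖ ≤ Q := by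
      intro z hz
      rw [hg]
      have hzc : z ∈ closedBall c (8 / 5) := by
        rw [mem_ball, dist_eq_norm] at hz
        rw [mem_closedBall, dist_eq_norm]
        calc ‖z - c‖ = ‖(z - ρ) + (ρ - c)‖ := by ring_nf
          _ ≤ ‖z - ρ‖ + ‖ρ - c‖ := norm_add_le _ _
          _ ≤ 8 / 5 := by rw [hρc]; linarith
      refine (h4 z hzc (hnz z hz)).trans ?_
      have h5 : Real.log (3 * M1 / ‖f c‖) + L.length * |Real.log (17 / 10 / (37 / 20 - 17 / 10))| + 1 ≤
          60 * K0 := by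
        have h6 : (L.length : ℝ) * |Real.log (17 / 10 / (37 / 20 - 17 / 10))| ≤ 13 * K0 * 4 :=
          mul_le_mul hlen hl2 (abs_nonneg _) (by positivity)
        linarith
      calc 8 * (17 / 10) / (17 / 10 - 8 / 5) ^ 2 * (Real.log (3 * M1 / ‖f c‖) +
            L.length * |Real.log (17 / 10 / (37 / 20 - 17 / 10))| + 1)
          ≤ 8 * (17 / 10) / (17 / 10 - 8 / 5) ^ 2 * (60 * K0) := by gcongr
        _ ≤ Q := by rw [hQ]; norm_num; linarith
    have hLne : ∀ z ∈ ball ρ d, ∀ w ∈ L, z ≠ w := by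
      rintro z hz w hw rfl
      exact hnz z hz (h1 z hw).1
    have hgd : ∀ z ∈ ball ρ d, HasDerivAt g ((deriv (deriv f) z * f z - deriv f z * deriv f z) /
        f z ^ 2 - -(L.map (fun w => ((z - w) ^ 2)⁻¹)).sum) z := by
      intro z hz
      have h5 := ((hfd1 z).hasDerivAt.div (hfd z).hasDerivAt (hnz z hz)).sub
        (sum_deriv L z (hLne z hz))
      refine h5.congr_of_eventuallyEq ?_
      exact Eventually.of_forall fun y => hg y
    have hρb : ρ ∈ ball ρ d := mem_ball_self hd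
    have hC := Complex.norm_deriv_le_of_forall_mem_sphere_norm_le (f := g) (c := ρ) (R := d / 2)
      (C := Q) (by positivity) (by
        refine DifferentiableOn.diffContOnCl_ball (U := ball ρ d) ?_ ?_
        · intro z hz
          exact (hgd z hz).differentiableAt.differentiableWithinAt
        · exact closedBall_subset_ball (by linarith)) (fun z hz => hgb z (by
        rw [mem_sphere] at hz
        rw [mem_ball, hz]
        linarith))
    rw [(hgd ρ hρb).deriv] at hC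
    rw [hB]
    have e : ((deriv f ρ / f ρ) ^ 2 - deriv (deriv f) ρ / f ρ) -
        (L.map (fun w => ((ρ - w) ^ 2)⁻¹)).sum =
        -((deriv (deriv f) ρ * f ρ - deriv f ρ * deriv f ρ) / f ρ ^ 2 -
          -(L.map (fun w => ((ρ - w) ^ 2)⁻¹)).sum) := by
      field_simp
      ring
    rw [e, norm_neg]
    refine hC.trans ?_
    rw [hQ, div_le_div_iff₀ (by positivity) hd]
    nlinarith

end Pool.Agent.Q85.Gap
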