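import Pool.Agent.Q85.Gap.Ze
import Pool.Agent.Y749.AH.Ix

/-! # The list of the ordinates and the smallest gaps -/

set_option autoImplicit false

open Filter Topology Set Complex

namespace Pool.Agent.Q85.Gap

open SG (ord NZ zmult ZS ZS_finite NZ_eq ord_le_iff ord_mono le_NZ_ord jump_one zmult_pos ord_pos
  ord_tendsto)

/-- there is a zero at every ordinate -/
theorem exists_zero_at {n : ℕ} (hn : 1 ≤ n) :
    ∃ s : ℂ, riemannZeta s = 0 ∧ 0 < s.re ∧ s.re < 1 ∧ s.im = ord n := by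
  by_contra hcon
  push Not at hcon
  have hpos := ord_pos hn
  have hfin := ZS_finite (ord n)
  have key : ∃ t, t < ord n ∧ NZ t = NZ (ord n) := by
    classical
    by_cases hne : hfin.toFinset.Nonempty
    · obtain ⟨s0, hs0, hmax⟩ := hfin.toFinset.exists_max_image (fun s => s.im) hne
      rw [Set.Finite.mem_toFinset] at hs0
      refine ⟨s0.im, lt_of_le_of_ne hs0.2.2.2.2 (hcon s0 hs0.1 hs0.2.1 hs0.2.2.1), ?_⟩
      rw [NZ_eq, NZ_eq]
      apply Finset.sum_congr _ (fun _ _ => rfl)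
      ext s
      rw [Set.Finite.mem_toFinset, Set.Finite.mem_toFinset]
      constructor
      · rintro ⟨h1, h2, h3, h4, h5⟩
        exact ⟨h1, h2, h3, h4, h5.trans hs0.2.2.2.2⟩
      · intro h
        refine ⟨h.1, h.2.1, h.2.2.1, h.2.2.2.1, ?_⟩
        exact hmax s (by rwa [Set.Finite.mem_toFinset])
    · rw [Finset.not_nonempty_iff_eq_empty] at hne
      refine ⟨0, hpos, ?_⟩
      rw [SG.NZ_nonpos le_rfl, NZ_eq, hne, Finset.sum_empty]
  obtain ⟨t, ht, he⟩ := key
  have h1 := le_NZ_ord hn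
  rw [← he] at h1
  have := (ord_le_iff hn t).mpr h1
  linarith

/-- every positive ordinate is in the list -/
theorem exists_ord {s : ℂ} (h : riemannZeta s = 0) (h1 : 0 < s.re) (h2 : s.re < 1)
    (h3 : 0 < s.im) : ∃ n : ℕ, 1 ≤ n ∧ ord n = s.im := by
  have h4 := jump_one h h1 h2 h3
  have h5 := zmult_pos h3 h
  have h6 := h4 0 h3
  have hn : 1 ≤ NZ s.im := by omega
  refine ⟨NZ s.im, hn, le_antisymm ((ord_le_iff hn _).2 le_rfl) ?_⟩
  by_contra hlt
  push Not at hlt
  have h7 := h4 _ hlt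
  have h8 := le_NZ_ord hn
  omega

/-- `ord` separates the indices: no ordinate strictly between consecutive members -/
theorem ord_index {n m : ℕ} (hm : 1 ≤ m) (h : ord n < ord m) : n < m := by
  by_contra hcon
  push Not at hcon
  exact absurd (ord_mono hm hcon) (not_le.2 h)

/-- the exceptional zeros -/
def Bad (s : ℂ) : Prop := riemannZeta s = 0 ∧ 0 < s.re ∧ s.re < 1 ∧ 0 < s.im ∧
  (s.re ≠ 1 / 2 ∨ deriv riemannZeta s = 0)

/-- an exceptional zero gives a vanishing gap -/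
theorem gap_zero {s : ℂ} (hs : Bad s) (h1 : 1 ≤ s.im) : ∃ n : ℕ, 1 ≤ n ∧ s.im ≤ ord n ∧
    ord (n + 1) = ord n := by
  obtain ⟨a1, a2, a3, a4, a5⟩ := hs
  have key : ∀ t, t < s.im → NZ t + 2 ≤ NZ s.im := by
    intro t ht
    rcases a5 with a5 | a5
    · have hz := SG.zero_reflect a1 a2 a3 h1
      have him : (1 - (starRingEnd ℂ) s).im = s.im := by simp
      have hre' : (1 - (starRingEnd ℂ) s).re = 1 - s.re := by simp
      refine SG.jump_two a1 a2 a3 a4 hz (by rw [hre']; linarith) (by rw [hre']; linarith) him ?_ t ht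
      intro he
      have := congrArg Complex.re he
      rw [hre'] at this
      apply a5
      linarith
    · have := jump_one a1 a2 a3 a4 t ht
      have := SG.zmult_two a4 a1 a5
      omega
  obtain ⟨n, g1, g2, g3⟩ := SG.consecutive_of_jump a4 key
  exact ⟨n, g1, g2, le_antisymm (g3.trans g2) (ord_mono g1 (Nat.le_succ n))⟩

theorem bad_finite {T : ℝ} : {s : ℂ | Bad s ∧ s.im ≤ T}.Finite := by
  refine (ZS_finite T).subset ?_
  rintro s ⟨⟨a1, a2, a3, a4, -⟩, a5⟩
  exact ⟨a1, a2, a3, a4, a5⟩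

/-- infinitely many exceptional zeros: infinitely many vanishing gaps -/
theorem gaps_zero (hinf : {s : ℂ | Bad s}.Infinite) : ∃ᶠ n : ℕ in atTop, ord (n + 1) = ord n := by
  rw [frequently_atTop]
  intro N
  have h1 : ∃ s : ℂ, Bad s ∧ max 1 (ord (N + 1) + 1) < s.im := by
    by_contra hcon
    push Not at hcon
    apply hinf
    refine (bad_finite (T := max 1 (ord (N + 1) + 1))).subset ?_
    intro s hs
    exact ⟨hs, hcon s hs⟩
  obtain ⟨s, hs, hsim⟩ := h1
  obtain ⟨n, g1, g2, g3⟩ := gap_zero hs ((le_max_left _ _).trans hsim.le)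
  refine ⟨n, ?_, g3⟩
  have h2 : ord (N + 1) < ord n := by
    have := le_max_right 1 (ord (N + 1) + 1)
    linarith
  have := ord_index g1 h2
  omega

/-- finitely many exceptional zeros: all large zeros are simple and on the line -/
theorem large_good (hfin : {s : ℂ | Bad s}.Finite) : ∃ T1 : ℝ, 1 ≤ T1 ∧ ∀ s : ℂ, riemannZeta s = 0 →
    0 < s.re → s.re < 1 → T1 ≤ s.im → s.re = 1 / 2 ∧ deriv riemannZeta s ≠ 0 := by
  obtain ⟨K, hK⟩ := (hfin.image (fun s => s.im)).bddAbove
  refine ⟨max 1 (K + 1), le_max_left _ _, ?_⟩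
  intro s h1 h2 h3 h4
  have h5 : 0 < s.im := by linarith [le_max_left 1 (K + 1)]
  by_contra hcon
  have hb : Bad s := by
    refine ⟨h1, h2, h3, h5, ?_⟩
    by_contra h6
    push Not at h6
    exact hcon ⟨h6.1, h6.2⟩
  have := hK (Set.mem_image_of_mem (fun s : ℂ => s.im) hb)
  have h7 := le_max_right 1 (K + 1)
  linarith

theorem zmult_one {s : ℂ} (hs : 0 < s.im) (h0 : riemannZeta s = 0)
    (h1 : deriv riemannZeta s ≠ 0) : zmult s = 1 := by
  have hs1 : s ≠ 1 := by intro h; rw [h] at hs; simp at hs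
  have ha := SG.zeta_an hs1
  have h2 := ha.analyticOrderAt_deriv_add_one
  have h3 : (fun z => riemannZeta z - riemannZeta s) = riemannZeta := by
    funext z; rw [h0, sub_zero]
  rw [h3] at h2
  have h4 : analyticOrderAt (deriv riemannZeta) s = 0 :=
    ha.deriv.analyticOrderAt_eq_zero.mpr h1
  rw [h4, zero_add] at h2
  unfold SG.zmult analyticOrderNatAt
  rw [← h2]
  rfl

/-- where all zeros are good the gaps are positive -/
theorem gap_pos {T1 : ℝ} (hT1 : 1 ≤ T1) (hg : ∀ s : ℂ, riemannZeta s = 0 →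
    0 < s.re → s.re < 1 → T1 ≤ s.im → s.re = 1 / 2 ∧ deriv riemannZeta s ≠ 0) {n : ℕ} (hn : 1 ≤ n)
    (hT : T1 ≤ ord n) : ord n < ord (n + 1) := by
  refine lt_of_le_of_ne (ord_mono hn (Nat.le_succ n)) ?_
  intro heq
  obtain ⟨s, h1, h2, h3, h4⟩ := exists_zero_at hn
  have hpos : 0 < ord n := by linarith
  have hc := SG.ord_count (ord n) hpos
  have hset : {s : ℂ | riemannZeta s = 0 ∧ 0 < s.re ∧ s.re < 1 ∧ s.im = ord n} = {s} := by
    ext z
    rw [Set.mem_singleton_iff]
    constructor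
    · rintro ⟨a1, a2, a3, a4⟩
      have e1 := (hg z a1 a2 a3 (by rw [a4]; exact hT)).1
      have e2 := (hg s h1 h2 h3 (by rw [h4]; exact hT)).1
      exact Complex.ext (by rw [e1, e2]) (by rw [a4, h4])
    · rintro rfl
      exact ⟨h1, h2, h3, h4⟩
  rw [hset, finsum_mem_singleton, zmult_one (by rw [h4]; exact hpos) h1
    (hg s h1 h2 h3 (by rw [h4]; exact hT)).2] at hc
  rw [Set.ncard_eq_one] at hc
  obtain ⟨a, ha⟩ := hc
  have m1 : n ∈ ({a} : Set ℕ) := by rw [← ha]; exact ⟨hn, rfl⟩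
  have m2 : n + 1 ∈ ({a} : Set ℕ) := by rw [← ha]; exact ⟨by omega, heq.symm⟩
  rw [Set.mem_singleton_iff] at m1 m2
  omega

/-- the number of zeros up to `T` is at least `T` -/
theorem NZ_lower : ∀ᶠ T : ℝ in atTop, 3 * T ≤ NZ T := by
  filter_upwards [Pool.Agent.Y749.AH.N_asymp (ε := 1 / 2) (by norm_num),
    (Real.tendsto_log_atTop).eventually_ge_atTop 60, eventually_ge_atTop 1] with T h1 h2 h3
  refine le_trans ?_ h1.1
  unfold Pool.Agent.Y749.Rig.nT
  have hpi := Real.pi_lt_four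
  have hpi0 := Real.pi_pos
  have e : (1 - 1 / 2) * (T * Real.log T / (2 * Real.pi)) = T * Real.log T / (4 * Real.pi) := by
    field_simp; ring
  rw [e, le_div_iff₀ (by positivity)]
  nlinarith

theorem ord_le_self : ∀ᶠ n : ℕ in atTop, ord n ≤ n := by
  have h1 := (tendsto_natCast_atTop_atTop (R := ℝ)).eventually NZ_lower
  filter_upwards [h1, eventually_ge_atTop 1] with n hn hn1
  rw [ord_le_iff hn1]
  have h2 : (n : ℝ) ≤ NZ (n : ℝ) := by
    have : (0 : ℝ) ≤ n := Nat.cast_nonneg _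
    linarith
  exact_mod_cast h2

/-- infinitely many gaps are less than one -/
theorem gap_lt_one : ∃ᶠ n : ℕ in atTop, ord (n + 1) - ord n < 1 := by
  intro hcon
  rw [eventually_atTop] at hcon
  obtain ⟨N, hN⟩ := hcon
  have h1 : ∀ k : ℕ, (k : ℝ) ≤ ord (N + 1 + k) := by
    intro k
    induction k with
    | zero => simpa using (ord_pos (by omega : 1 ≤ N + 1)).le
    | succ k ih =>
      have := hN (N + 1 + k) (by omega)
      push Not at this
      push_cast
      have e : N + 1 + (k + 1) = N + 1 + k + 1 := by ring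
      rw [e]
      linarith
  have h2 := (tendsto_natCast_atTop_atTop (R := ℝ)).eventually NZ_lower
  obtain ⟨K, hK⟩ := eventually_atTop.1 h2
  obtain ⟨k, hk⟩ : ∃ k : ℕ, k = max K (N + 10) := ⟨_, rfl⟩
  have h3 := hK k (by rw [hk]; exact le_max_left _ _)
  have h4 : N + 10 ≤ k := by rw [hk]; exact le_max_right _ _
  have h5 := h1 (k + 1)
  have h6 : NZ (k : ℝ) < N + 1 + (k + 1) := by
    by_contra hc
    push Not at hc
    have := (ord_le_iff (by omega : 1 ≤ N + 1 + (k + 1)) (k : ℝ)).2 hc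
    push_cast at h5
    linarith
  have h7 : (NZ (k : ℝ) : ℝ) < (N : ℝ) + 1 + ((k : ℝ) + 1) := by exact_mod_cast h6
  have h8 : (N : ℝ) + 10 ≤ k := by exact_mod_cast h4
  have h9 : (0 : ℝ) ≤ N := Nat.cast_nonneg _
  linarith

end Pool.Agent.Q85.Gap
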