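import Pool.Agent.Q85.Gap.Gen
import Pool.Agent.H382P.LocExp
import Pool.Agent.W188.GLR.G1

/-! # Zeros of the derivative of zeta near close zeros: the forward direction -/

set_option autoImplicit false

open Filter Topology Set Metric Complex

namespace Pool.Agent.Q85.Gap

open Pool.Agent.W188.GLR (Lam gr_hasDeriv lam_bounds Cd gr_ne)

/-- `ζ' / ζ` through the completed function -/
lemma G_eq {z : ℂ} (h0 : 0 < z.re) (h1 : z ≠ 1) (hz : riemannZeta z ≠ 0) :
    G z = logDeriv completedRiemannZeta z - Lam z := by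
  have hz0 : z ≠ 0 := by rintro rfl; simp at h0
  have e0 : riemannZeta =ᶠ[𝓝 z] fun w => completedRiemannZeta w / Gammaℝ w := by
    filter_upwards [isOpen_compl_singleton.mem_nhds hz0] with w hw using
      riemannZeta_def_of_ne_zero hw
  have hΛ : completedRiemannZeta z ≠ 0 := by
    intro h
    rw [riemannZeta_def_of_ne_zero hz0, h, zero_div] at hz
    exact hz rfl
  have hd : DifferentiableAt ℂ completedRiemannZeta z := differentiableAt_completedZeta hz0 h1
  have h2 := logDeriv_div (f := completedRiemannZeta) (g := Gammaℝ) z hΛ (gr_ne h0) hd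
    (gr_hasDeriv h0).differentiableAt
  have h3 : logDeriv riemannZeta z = logDeriv (fun w => completedRiemannZeta w / Gammaℝ w) z := by
    rw [logDeriv_apply, logDeriv_apply, e0.deriv_eq, e0.eq_of_nhds]
  have h4 : logDeriv Gammaℝ z = Lam z := by
    rw [logDeriv_apply, (gr_hasDeriv h0).deriv, mul_comm, mul_div_assoc, div_self (gr_ne h0),
      mul_one]
  have h5 : G z = logDeriv riemannZeta z := by rw [logDeriv_apply]; rfl
  rw [h5, h3, ← h4]
  exact h2

/-- bounds for the Gamma factor on the line -/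
lemma lam_line : ∃ t0 : ℝ, 10 ≤ t0 ∧ ∀ t : ℝ, t0 ≤ t →
    ‖Lam (1 / 2 + I * t)‖ ≤ Real.log t ∧ Real.log t / 4 ≤ (Lam (1 / 2 + I * t)).re := by
  obtain ⟨t0, h0⟩ := eventually_atTop.1 (Real.tendsto_log_atTop.eventually_ge_atTop
    (4 * Cd (1 / 4) + 4))
  refine ⟨max 10 t0, le_max_left _ _, fun t ht => ?_⟩
  have h1 := h0 t ((le_max_right _ _).trans ht)
  have ht10 : 10 ≤ t := (le_max_left _ _).trans ht
  obtain ⟨h2, h3⟩ := lam_bounds (w := 1 / 2 + I * t) (a := 1 / 4) (by norm_num) (by simp; norm_num)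
  have h4 : ‖(1 / 2 + I * t : ℂ) / 2 + 2‖ ≤ t := by
    have e : (1 / 2 + I * t : ℂ) / 2 + 2 = (9 / 4 : ℂ) + I * ((t / 2 : ℝ) : ℂ) := by
      push_cast; ring
    rw [e]
    refine (norm_add_le _ _).trans ?_
    rw [norm_mul, Complex.norm_I, one_mul, Complex.norm_real, Real.norm_eq_abs,
      abs_of_nonneg (by linarith)]
    norm_num
    linarith
  have h5 : t / 2 ≤ ‖(1 / 2 + I * t : ℂ) / 2 + 2‖ := by
    have := Complex.abs_im_le_norm ((1 / 2 + I * t : ℂ) / 2 + 2)
    have e : ((1 / 2 + I * t : ℂ) / 2 + 2).im = t / 2 := by simp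
    rw [e, abs_of_nonneg (by linarith)] at this
    exact this
  have h6 := Real.log_le_log (by linarith) h4
  have h7 := Real.log_le_log (by linarith) h5
  have h8 : Real.log t - 1 ≤ Real.log (t / 2) := by
    rw [Real.log_div (by linarith) (by norm_num)]
    have := Real.log_two_lt_d9
    linarith
  have hC : 0 ≤ Cd (1 / 4) := by
    have := (norm_nonneg _).trans h3
    unfold Cd
    have := Pool.Agent.W188.GLR.Z2_nonneg
    positivity
  constructor
  · linarith
  · linarith

/-- real part of `ζ' / ζ` on the line -/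
lemma G_re : ∃ t0 : ℝ, 10 ≤ t0 ∧ ∀ t : ℝ, t0 ≤ t → riemannZeta (1 / 2 + I * t) ≠ 0 →
    (G (1 / 2 + I * t)).re ≤ -(Real.log t / 4) := by
  obtain ⟨t0, h0, h⟩ := lam_line
  refine ⟨t0, h0, fun t ht hz => ?_⟩
  have ht10 : 10 ≤ t := h0.trans ht
  have h1 : (1 / 2 + I * t : ℂ) ≠ 1 := by
    intro he
    have := congrArg Complex.im he
    simp at this
    linarith
  rw [G_eq (by simp) h1 hz, Complex.sub_re]
  have h2 := SP.LocAux.re_logDeriv_half t (by linarith)
  have e : (⟨1 / 2, t⟩ : ℂ) = 1 / 2 + I * t := by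
    apply Complex.ext <;> simp
  rw [e] at h2
  rw [h2]
  linarith [(h t ht).2]

/-- a critical point of the completed function between two zeros -/
theorem crit {a b : ℝ} (hab : a < b) (ha : 1 ≤ a) (h1 : riemannZeta (1 / 2 + I * a) = 0)
    (h2 : riemannZeta (1 / 2 + I * b) = 0) : ∃ x : ℝ, a < x ∧ x < b ∧
      deriv completedRiemannZeta (1 / 2 + I * x) = 0 := by
  have hne : ∀ y : ℝ, a ≤ y → (1 / 2 + I * y : ℂ) ≠ 0 ∧ (1 / 2 + I * y : ℂ) ≠ 1 := by
    intro y hy
    constructor
    · intro h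
      have := congrArg Complex.im h
      simp at this
      linarith
    · intro h
      have := congrArg Complex.im h
      simp at this
      linarith
  have hd : ∀ y : ℝ, a ≤ y → HasDerivAt (fun y : ℝ => completedRiemannZeta (1 / 2 + I * y))
      (deriv completedRiemannZeta (1 / 2 + I * y) * I) y := by
    intro y hy
    have e1 : HasDerivAt (fun y : ℝ => (1 / 2 + I * y : ℂ)) I y := by
      have := ((hasDerivAt_id (y : ℂ)).comp_ofReal.const_mul I).const_add (1 / 2)
      simpa using this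
    exact (differentiableAt_completedZeta (hne y hy).1 (hne y hy).2).hasDerivAt.comp y e1
  have hre : ∀ y : ℝ, a ≤ y → HasDerivAt (fun y : ℝ => (completedRiemannZeta (1 / 2 + I * y)).re)
      (deriv completedRiemannZeta (1 / 2 + I * y) * I).re y := fun y hy =>
    Complex.reCLM.hasFDerivAt.comp_hasDerivAt y (hd y hy)
  have him : ∀ y : ℝ, a ≤ y → (deriv completedRiemannZeta (1 / 2 + I * y) * I).im = 0 := by
    intro y hy
    have e1 : HasDerivAt (fun y : ℝ => (completedRiemannZeta (1 / 2 + I * y)).im)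
        (deriv completedRiemannZeta (1 / 2 + I * y) * I).im y :=
      Complex.imCLM.hasFDerivAt.comp_hasDerivAt y (hd y hy)
    have e2 : (fun y : ℝ => (completedRiemannZeta (1 / 2 + I * y)).im) = fun _ => (0 : ℝ) := by
      funext u
      exact SG.Lam_real u
    rw [e2] at e1
    exact e1.unique (hasDerivAt_const y 0)
  have hzero : ∀ y : ℝ, a ≤ y → riemannZeta (1 / 2 + I * y) = 0 →
      completedRiemannZeta (1 / 2 + I * y) = 0 := by
    intro y hy h
    rw [riemannZeta_def_of_ne_zero (hne y hy).1, div_eq_zero_iff] at h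
    exact h.resolve_right (gr_ne (by simp))
  obtain ⟨x, ⟨hx1, hx2⟩, hx⟩ := exists_hasDerivAt_eq_zero
    (f := fun y : ℝ => (completedRiemannZeta (1 / 2 + I * y)).re)
    (f' := fun y => (deriv completedRiemannZeta (1 / 2 + I * y) * I).re) hab
    (fun y hy => (hre y hy.1).continuousAt.continuousWithinAt) (by
      show (completedRiemannZeta (1 / 2 + I * a)).re = (completedRiemannZeta (1 / 2 + I * b)).re
      rw [hzero a le_rfl h1, hzero b hab.le h2]) (fun y hy => hre y hy.1.le)
  refine ⟨x, hx1, hx2, ?_⟩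
  have h3 : deriv completedRiemannZeta (1 / 2 + I * x) * I = 0 :=
    Complex.ext hx (him x hx1.le)
  exact (mul_eq_zero.1 h3).resolve_right I_ne_zero

end Pool.Agent.Q85.Gap
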