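import Pool.Agent.Q85.Gap.Loc

/-! # The local estimate at a simple zero of zeta on the critical line -/

set_option autoImplicit false

open Filter Topology Set Metric Complex

namespace Pool.Agent.Q85.Gap

/-- the second logarithmic derivative of `ζ(s) / (s - ρ)` at `ρ`, with a minus sign -/
noncomputable def B (ρ : ℂ) : ℂ :=
  (deriv (deriv riemannZeta) ρ / (2 * deriv riemannZeta ρ)) ^ 2 -
    deriv (deriv (deriv riemannZeta)) ρ / (3 * deriv riemannZeta ρ)

lemma z1_mul {z : ℂ} (hz : z ≠ 1) : riemannZeta₁ z = (z - 1) * riemannZeta z := by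
  rw [riemannZeta_eq_inv_sub_mul hz, ← mul_assoc, mul_inv_cancel₀ (sub_ne_zero.2 hz), one_mul]

lemma zeta_da {z : ℂ} (hz : z ≠ 1) : AnalyticAt ℂ riemannZeta z := by
  have h : DifferentiableOn ℂ riemannZeta ({1}ᶜ : Set ℂ) := fun w hw =>
    (differentiableAt_riemannZeta hw).differentiableWithinAt
  exact h.analyticAt (isOpen_compl_singleton.mem_nhds hz)

lemma z1_derivs {ρ : ℂ} (hρ : ρ ≠ 1) (h0 : riemannZeta ρ = 0) :
    deriv riemannZeta₁ ρ = (ρ - 1) * deriv riemannZeta ρ ∧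
    deriv (deriv riemannZeta₁) ρ = 2 * deriv riemannZeta ρ + (ρ - 1) * deriv (deriv riemannZeta) ρ ∧
    deriv (deriv (deriv riemannZeta₁)) ρ = 3 * deriv (deriv riemannZeta) ρ +
      (ρ - 1) * deriv (deriv (deriv riemannZeta)) ρ := by
  have hop : IsOpen ({1}ᶜ : Set ℂ) := isOpen_compl_singleton
  have e0 : ∀ z : ℂ, z ≠ 1 → riemannZeta₁ =ᶠ[𝓝 z] fun w => (w - 1) * riemannZeta w := by
    intro z hz
    filter_upwards [hop.mem_nhds hz] with w hw using z1_mul hw
  have e1 : ∀ z : ℂ, z ≠ 1 → deriv riemannZeta₁ z = riemannZeta z + (z - 1) * deriv riemannZeta z := by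
    intro z hz
    rw [(e0 z hz).deriv_eq]
    have h2 : HasDerivAt (fun w => (w - 1) * riemannZeta w)
        (1 * riemannZeta z + (z - 1) * deriv riemannZeta z) z :=
      ((hasDerivAt_id z).sub_const 1).mul (zeta_da hz).differentiableAt.hasDerivAt
    rw [h2.deriv, one_mul]
  have e1' : ∀ z : ℂ, z ≠ 1 → deriv riemannZeta₁ =ᶠ[𝓝 z] fun w =>
      riemannZeta w + (w - 1) * deriv riemannZeta w := by
    intro z hz
    filter_upwards [hop.mem_nhds hz] with w hw using e1 w hw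
  have e2 : ∀ z : ℂ, z ≠ 1 → deriv (deriv riemannZeta₁) z =
      2 * deriv riemannZeta z + (z - 1) * deriv (deriv riemannZeta) z := by
    intro z hz
    rw [(e1' z hz).deriv_eq]
    have h2 : HasDerivAt (fun w => riemannZeta w + (w - 1) * deriv riemannZeta w)
        (deriv riemannZeta z + (1 * deriv riemannZeta z + (z - 1) * deriv (deriv riemannZeta) z)) z :=
      (zeta_da hz).differentiableAt.hasDerivAt.add
        (((hasDerivAt_id z).sub_const 1).mul (zeta_da hz).deriv.differentiableAt.hasDerivAt)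
    rw [h2.deriv]; ring
  have e2' : ∀ z : ℂ, z ≠ 1 → deriv (deriv riemannZeta₁) =ᶠ[𝓝 z] fun w =>
      2 * deriv riemannZeta w + (w - 1) * deriv (deriv riemannZeta) w := by
    intro z hz
    filter_upwards [hop.mem_nhds hz] with w hw using e2 w hw
  refine ⟨by rw [e1 ρ hρ, h0, zero_add], e2 ρ hρ, ?_⟩
  rw [(e2' ρ hρ).deriv_eq]
  have h2 : HasDerivAt (fun w => 2 * deriv riemannZeta w + (w - 1) * deriv (deriv riemannZeta) w)
      (2 * deriv (deriv riemannZeta) ρ + (1 * deriv (deriv riemannZeta) ρ +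
        (ρ - 1) * deriv (deriv (deriv riemannZeta)) ρ)) ρ :=
    ((zeta_da hρ).deriv.differentiableAt.hasDerivAt.const_mul 2).add
      (((hasDerivAt_id ρ).sub_const 1).mul (zeta_da hρ).deriv.deriv.differentiableAt.hasDerivAt)
  rw [h2.deriv]; ring

/-- the local estimate -/
theorem local_est {t d : ℝ} (ht : 10 ≤ t) (h0 : riemannZeta (1 / 2 + I * t) = 0)
    (h1 : deriv riemannZeta (1 / 2 + I * t) ≠ 0) (hd : 0 < d) (hd1 : d ≤ 1 / 10)
    (hline : ∀ w : ℂ, riemannZeta w = 0 → 0 < w.re → w.re < 1 → t - 2 ≤ w.im → w.re = 1 / 2)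
    (hsep : ∀ w : ℂ, riemannZeta w = 0 → w.re = 1 / 2 → w.im ≠ t → d ≤ |w.im - t|)
    (hnear : d < 1 / 10 → ∃ w : ℂ, riemannZeta w = 0 ∧ w.re = 1 / 2 ∧ w.im ≠ t ∧ |w.im - t| = d) :
    |2 * Real.log (1 / d) - Real.log (1 + ‖B (1 / 2 + I * t)‖)| ≤
      2 * Real.log (10 ^ 9 * Real.log t) := by
  obtain ⟨ρ, hρd⟩ : ∃ ρ : ℂ, ρ = 1 / 2 + I * t := ⟨_, rfl⟩
  rw [← hρd] at h0 h1 ⊢
  obtain ⟨c, hc⟩ : ∃ c : ℂ, c = 2 + t * I := ⟨_, rfl⟩
  have hρre : ρ.re = 1 / 2 := by rw [hρd]; simp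
  have hρim : ρ.im = t := by rw [hρd]; simp
  have hρ1 : ρ ≠ 1 := by
    intro h; rw [h] at hρim; simp at hρim; linarith
  have hρ10 : ρ - 1 ≠ 0 := sub_ne_zero.2 hρ1
  obtain ⟨d1, d2, d3⟩ := z1_derivs hρ1 h0
  have hlt : 2 < Real.log t := by
    rw [Real.lt_log_iff_exp_lt (by linarith)]
    have : Real.exp 2 = Real.exp 1 ^ 2 := by rw [← Real.exp_nat_mul]; norm_num
    rw [this]
    have h2 := Real.exp_one_lt_d9
    have h3 := Real.exp_pos 1
    nlinarith
  obtain ⟨ℓ, hℓ⟩ : ∃ ℓ : ℝ, ℓ = Real.log t := ⟨_, rfl⟩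
  rw [← hℓ] at hlt ⊢
  have hFlow := Pool.Agent.H437R2.z1_lower t
  rw [← hc] at hFlow
  have hFc : riemannZeta₁ c ≠ 0 := by
    intro h
    rw [h, norm_zero] at hFlow
    norm_num at hFlow
  have hρc : ‖ρ - c‖ = 3 / 2 := by
    have : ρ - c = ((-3 / 2 : ℝ) : ℂ) := by
      rw [hρd, hc]; push_cast; ring
    rw [this, Complex.norm_real, Real.norm_eq_abs]
    norm_num
  have hzero : ∀ w : ℂ, riemannZeta₁ w = 0 → 0 < w.re → w.re < 1 ∨ True → riemannZeta w = 0 := by
    intro w hw _ _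
    have hw1 : w ≠ 1 := by
      rintro rfl
      rw [riemannZeta₁_one] at hw
      exact one_ne_zero hw
    rw [z1_mul hw1] at hw
    exact (mul_eq_zero.1 hw).resolve_left (sub_ne_zero.2 hw1)
  have hre1 : ∀ w : ℂ, riemannZeta w = 0 → w.re < 1 := by
    intro w hw
    by_contra h
    exact riemannZeta_ne_zero_of_one_le_re (not_lt.1 h) hw
  -- zeros near the point
  have hnearz : ∀ w : ℂ, riemannZeta₁ w = 0 → ‖w - c‖ ≤ 17 / 10 → riemannZeta w = 0 ∧
      w.re = 1 / 2 := by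
    intro w hw hwc
    have hre : |w.re - 2| ≤ 17 / 10 := by
      have := (Complex.abs_re_le_norm (w - c)).trans hwc
      simpa [hc] using this
    have him : |w.im - t| ≤ 17 / 10 := by
      have := (Complex.abs_im_le_norm (w - c)).trans hwc
      simpa [hc] using this
    have hre0 : 0 < w.re := by linarith [(abs_le.1 hre).1]
    have hz := hzero w hw hre0 (Or.inr trivial)
    exact ⟨hz, hline w hz hre0 (hre1 w hz) (by linarith [(abs_le.1 him).1])⟩
  have hM : ∀ z ∈ closedBall c (37 / 20), ‖riemannZeta₁ z‖ ≤ 11 * (t + 6) ^ 2 := by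
    intro z hz
    rw [mem_closedBall, dist_eq_norm] at hz
    have hre : |z.re - 2| ≤ 37 / 20 := by
      have := (Complex.abs_re_le_norm (z - c)).trans hz
      simpa [hc] using this
    refine (SG.z1_growth (by linarith [(abs_le.1 hre).1])).trans ?_
    have hcn : ‖c‖ ≤ 2 + t := by
      rw [hc]
      refine (norm_add_le _ _).trans ?_
      rw [norm_mul, Complex.norm_I, mul_one, Complex.norm_real, Real.norm_eq_abs,
        abs_of_nonneg (by linarith)]
      simp
    have h3 : ‖z‖ ≤ 37 / 20 + (2 + t) := by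
      have := norm_add_le (z - c) c
      rw [sub_add_cancel] at this
      linarith
    have h4 : ‖z‖ + 1 ≤ t + 6 := by linarith
    gcongr
  have hK0 : Real.log (5 * (11 * (t + 6) ^ 2) / ‖riemannZeta₁ c‖) ≤ 5 * ℓ := by
    have h5 : 5 * (11 * (t + 6) ^ 2) / ‖riemannZeta₁ c‖ ≤ t ^ 5 := by
      rw [div_le_iff₀ (norm_pos_iff.2 hFc)]
      have e1 : (t + 6) ^ 2 ≤ 4 * t ^ 2 := by nlinarith
      have e2 : (1000 : ℝ) ≤ t ^ 3 := by
        have : (10 : ℝ) ^ 3 ≤ t ^ 3 := by gcongr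
        linarith
      calc 5 * (11 * (t + 6) ^ 2) ≤ 220 * t ^ 2 := by linarith
        _ ≤ t ^ 3 * t ^ 2 * (1 / 4) := by
            have : 0 ≤ t ^ 2 := by positivity
            nlinarith
        _ = t ^ 5 * (1 / 4) := by ring
        _ ≤ t ^ 5 * ‖riemannZeta₁ c‖ := by gcongr
    have h6 := Real.log_le_log (by
      have := norm_pos_iff.2 hFc
      positivity) h5
    rw [Real.log_pow, ← hℓ] at h6
    exact_mod_cast h6
  obtain ⟨L, l1, l2, l3, l4⟩ := second riemannZeta₁ differentiable_riemannZeta₁ c ρ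
    (M1 := 11 * (t + 6) ^ 2) (K0 := 5 * ℓ) (d := d) (by rw [z1_mul hρ1, h0, mul_zero]) hρc
    (by rw [d1]; exact mul_ne_zero hρ10 h1) hFc hM hK0 (by linarith) hd hd1 (by
      intro w hw hwρ
      by_contra hcon
      push Not at hcon
      have hwc : ‖w - c‖ ≤ 17 / 10 := by
        calc ‖w - c‖ = ‖(w - ρ) + (ρ - c)‖ := by ring_nf
          _ ≤ ‖w - ρ‖ + ‖ρ - c‖ := norm_add_le _ _
          _ ≤ 17 / 10 := by rw [hρc]; linarith
      obtain ⟨g1, g2⟩ := hnearz w hw hwc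
      have him : w.im ≠ t := by
        intro h
        exact hwρ (Complex.ext (by rw [g2, hρre]) (by rw [h, hρim]))
      have h5 := hsep w g1 g2 him
      have h6 := Complex.abs_im_le_norm (w - ρ)
      rw [Complex.sub_im, hρim] at h6
      linarith)
  -- the sum over the zeros
  have hterm : ∀ w ∈ L, ((ρ - w) ^ 2)⁻¹ = -((((w.im - t) ^ 2)⁻¹ : ℝ) : ℂ) := by
    intro w hw
    obtain ⟨g1, g2⟩ := hnearz w (l1 w hw).1 (l1 w hw).2.2
    have h5 : ρ - w = -(((w.im - t : ℝ) : ℂ) * I) := by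
      apply Complex.ext
      · simp [hρre, g2]
      · simp [hρim]
    rw [h5, neg_sq, mul_pow, I_sq, mul_neg_one, inv_neg]
    push_cast
    ring
  obtain ⟨S, hS⟩ : ∃ S : ℝ, S = (L.map (fun w => ((w.im - t) ^ 2)⁻¹)).sum := ⟨_, rfl⟩
  have hsum : (L.map (fun w => ((ρ - w) ^ 2)⁻¹)).sum = -(S : ℂ) := by
    rw [List.map_congr_left hterm, hS]
    clear * -
    induction L with
    | nil => simp
    | cons a L ih =>
      simp only [List.map_cons, List.sum_cons, ih]
      push_cast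
      ring
  have hS0 : 0 ≤ S := by
    rw [hS]
    apply List.sum_nonneg
    intro x hx
    rw [List.mem_map] at hx
    obtain ⟨w, -, rfl⟩ := hx
    positivity
  have himne : ∀ w ∈ L, w.im ≠ t := by
    intro w hw h
    obtain ⟨g1, g2⟩ := hnearz w (l1 w hw).1 (l1 w hw).2.2
    exact (l1 w hw).2.1 (Complex.ext (by rw [g2, hρre]) (by rw [h, hρim]))
  have hSup : S ≤ 500 * ℓ / d ^ 2 := by
    have h5 : S ≤ L.length • (1 / d ^ 2) := by
      rw [hS, ← List.length_map (fun w : ℂ => ((w.im - t) ^ 2)⁻¹) (as := L)]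
      apply List.sum_le_card_nsmul
      intro x hx
      rw [List.mem_map] at hx
      obtain ⟨w, hw, rfl⟩ := hx
      obtain ⟨g1, g2⟩ := hnearz w (l1 w hw).1 (l1 w hw).2.2
      have h6 := hsep w g1 g2 (himne w hw)
      rw [inv_eq_one_div]
      apply one_div_le_one_div_of_le (by positivity)
      rw [← sq_abs (w.im - t)]
      gcongr
    rw [nsmul_eq_mul] at h5
    refine h5.trans ?_
    rw [mul_one_div]
    gcongr
    linarith
  have hSlow : d < 1 / 10 → 1 / d ^ 2 ≤ S := by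
    intro hdl
    obtain ⟨w, g1, g2, g3, g4⟩ := hnear hdl
    have hw1 : w ≠ 1 := by
      rintro rfl
      norm_num at g2
    have hwρ : w ≠ ρ := by
      rintro rfl
      exact g3 hρim
    have hwL : w ∈ L := by
      refine l2 w (by rw [z1_mul hw1, g1, mul_zero]) hwρ ?_
      have h5 : ‖w - ρ‖ = d := by
        have : w - ρ = ((w.im - t : ℝ) : ℂ) * I := by
          apply Complex.ext
          · simp [hρre, g2]
          · simp [hρim]
        rw [this, norm_mul, Complex.norm_I, mul_one, Complex.norm_real, Real.norm_eq_abs, g4]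
      calc ‖w - c‖ = ‖(w - ρ) + (ρ - c)‖ := by ring_nf
        _ ≤ ‖w - ρ‖ + ‖ρ - c‖ := norm_add_le _ _
        _ ≤ 17 / 10 := by rw [hρc, h5]; linarith
    rw [hS]
    have h6 : ((w.im - t) ^ 2)⁻¹ = 1 / d ^ 2 := by
      rw [← sq_abs, g4, inv_eq_one_div]
    rw [← h6]
    refine List.single_le_sum ?_ _ (List.mem_map.2 ⟨w, hwL, rfl⟩)
    intro x hx
    rw [List.mem_map] at hx
    obtain ⟨w, -, rfl⟩ := hx
    positivity
  -- the quantity `B`
  have hB : (deriv (deriv riemannZeta₁) ρ / (2 * deriv riemannZeta₁ ρ)) ^ 2 -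
      deriv (deriv (deriv riemannZeta₁)) ρ / (3 * deriv riemannZeta₁ ρ) =
      B ρ + 1 / (ρ - 1) ^ 2 := by
    rw [d1, d2, d3]
    unfold B
    field_simp
    ring
  rw [hB, hsum] at l4
  have hr1 : ‖1 / (ρ - 1) ^ 2‖ ≤ 1 := by
    rw [norm_div, norm_one, norm_pow]
    have h5 : t ≤ ‖ρ - 1‖ := by
      have := Complex.abs_im_le_norm (ρ - 1)
      rw [Complex.sub_im, hρim, Complex.one_im, sub_zero, abs_of_nonneg (by linarith)] at this
      exact this
    rw [div_le_one (by positivity)]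
    nlinarith
  obtain ⟨b, hb⟩ : ∃ b : ℝ, b = ‖B ρ‖ := ⟨_, rfl⟩
  have hb0 : 0 ≤ b := by rw [hb]; exact norm_nonneg _
  have hSn : ‖(S : ℂ)‖ = S := by rw [Complex.norm_real, Real.norm_eq_abs, abs_of_nonneg hS0]
  have hup : b ≤ S + 1 + 10 ^ 7 * (5 * ℓ) / d := by
    have e : B ρ = (B ρ + 1 / (ρ - 1) ^ 2 - -(S : ℂ)) - S - 1 / (ρ - 1) ^ 2 := by ring
    rw [hb, e]
    refine (norm_sub_le _ _).trans ?_
    have := norm_sub_le (B ρ + 1 / (ρ - 1) ^ 2 - -(S : ℂ)) (S : ℂ)
    rw [hSn] at this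
    linarith
  have hlo : S ≤ b + 1 + 10 ^ 7 * (5 * ℓ) / d := by
    have e : (S : ℂ) = (B ρ + 1 / (ρ - 1) ^ 2 - -(S : ℂ)) - B ρ - 1 / (ρ - 1) ^ 2 := by ring
    have h5 : ‖(S : ℂ)‖ ≤ b + 1 + 10 ^ 7 * (5 * ℓ) / d := by
      rw [e]
      refine (norm_sub_le _ _).trans ?_
      have := norm_sub_le (B ρ + 1 / (ρ - 1) ^ 2 - -(S : ℂ)) (B ρ)
      rw [← hb] at this
      linarith
    rwa [hSn] at h5
  rw [← hb]
  have hid : 1 ≤ 1 / d := by rw [le_div_iff₀ hd]; linarith
  have hld : 0 ≤ Real.log (1 / d) := Real.log_nonneg hid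
  have hX : 1 ≤ 10 ^ 9 * ℓ := by linarith
  have hlX : 0 ≤ Real.log (10 ^ 9 * ℓ) := Real.log_nonneg hX
  have hlb : 0 ≤ Real.log (1 + b) := Real.log_nonneg (by linarith)
  have h2ld : Real.log ((1 / d) ^ 2) = 2 * Real.log (1 / d) := by
    rw [Real.log_pow]; norm_num
  obtain ⟨P, hP⟩ : ∃ P : ℝ, P = Real.log (10 ^ 9 * ℓ) := ⟨_, rfl⟩
  obtain ⟨D, hD⟩ : ∃ D : ℝ, D = Real.log (1 / d) := ⟨_, rfl⟩
  obtain ⟨E, hE⟩ : ∃ E : ℝ, E = Real.log (1 + b) := ⟨_, rfl⟩
  rw [← hP] at hlX ⊢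
  rw [← hD] at hld h2ld ⊢
  rw [← hE] at hlb ⊢
  rw [abs_le]
  constructor
  · -- upper bound for `B`
    have h5 : 1 + b ≤ (1 / d) ^ 2 * (10 ^ 9 * ℓ) := by
      have h6 : 10 ^ 7 * (5 * ℓ) / d ≤ (1 / d) ^ 2 * (5 * 10 ^ 7 * ℓ) := by
        rw [div_eq_mul_one_div]
        have : 1 / d ≤ (1 / d) ^ 2 := by nlinarith
        nlinarith
      have h7 : 500 * ℓ / d ^ 2 = (1 / d) ^ 2 * (500 * ℓ) := by
        field_simp
      have h8 : 1 ≤ (1 / d) ^ 2 := by nlinarith
      have h9 : 0 < (1 / d) ^ 2 * ℓ := by positivity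
      nlinarith
    have h6 := Real.log_le_log (by linarith) h5
    rw [Real.log_mul (by positivity) (by positivity), h2ld, ← hP, ← hE] at h6
    linarith only [h6, hlX]
  · rcases lt_or_ge d (1 / 10) with h | h
    · have h5 := hSlow h
      rcases le_or_gt 1 (10 ^ 8 * ℓ * d) with h6 | h6
      · have h7 : 1 / d ≤ 10 ^ 9 * ℓ := by
          rw [div_le_iff₀ hd]
          have : 0 < ℓ * d := by positivity
          nlinarith
        have h8 := Real.log_le_log (by positivity) h7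
        rw [← hP, ← hD] at h8
        linarith only [h8, hlb]
      · have h7 : 10 ^ 7 * (5 * ℓ) / d ≤ 1 / 2 * (1 / d ^ 2) := by
          rw [div_le_iff₀ hd]
          have e : 1 / 2 * (1 / d ^ 2) * d = 1 / (2 * d) := by field_simp
          rw [e, le_div_iff₀ (by positivity)]
          nlinarith
        have h8 : (1 / d) ^ 2 ≤ (1 + b) * 2 := by
          have : (1 / d) ^ 2 = 1 / d ^ 2 := by rw [div_pow, one_pow]
          rw [this]
          linarith
        have h9 := Real.log_le_log (by positivity) h8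
        rw [Real.log_mul (by positivity) (by norm_num), h2ld, ← hE] at h9
        have h10 : Real.log 2 ≤ P := by
          rw [hP]
          exact Real.log_le_log (by norm_num) (by linarith)
        linarith only [h9, h10, hlX]
    · have h7 : 1 / d ≤ 10 ^ 9 * ℓ := by
        rw [div_le_iff₀ hd]
        nlinarith
      have h8 := Real.log_le_log (by positivity) h7
      rw [← hP, ← hD] at h8
      linarith only [h8, hlb]

end Pool.Agent.Q85.Gap
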